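import Pool.Graph.R_pool_sql_team_seeded_63374d34.N596.SC.Pomp

/-!
Project HE (helper957), problem MP_83fd13_an: transfer from `ℂ` to the Euclidean plane
(adapted from the library file `N229/SC/TR.lean` by helper50).
-/

set_option autoImplicit false

open MeasureTheory Set Filter Topology

namespace Pool.Agent.H957.HE

open Pool.Agent.N229.SC (Weak uF GF)

/-- the plane -/
abbrev E2 := EuclideanSpace ℝ (Fin 2)

/-- the isometry -/
noncomputable def JJ : ℂ ≃ₗᵢ[ℝ] E2 := Complex.orthonormalBasisOneI.repr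

private lemma tr_mp : MeasurePreserving JJ volume volume := JJ.measurePreserving

private lemma tr_me : MeasurableEmbedding JJ := JJ.toHomeomorph.measurableEmbedding

private lemma tr_fd {φ : E2 → ℝ} (h : ContDiff ℝ 1 φ) (y v : ℂ) :
    fderiv ℝ (fun z => φ (JJ z)) y v = fderiv ℝ φ (JJ y) (JJ v) := by
  have h1 : HasFDerivAt φ (fderiv ℝ φ (JJ y)) (JJ y) :=
    (h.differentiable (by norm_num) _).hasFDerivAt
  have h2 : HasFDerivAt (fun z : ℂ => JJ z) (JJ.toContinuousLinearEquiv : ℂ →L[ℝ] E2) y :=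
    (JJ.toContinuousLinearEquiv : ℂ →L[ℝ] E2).hasFDerivAt
  have h3 : HasFDerivAt (fun z => φ (JJ z))
      ((fderiv ℝ φ (JJ y)).comp (JJ.toContinuousLinearEquiv : ℂ →L[ℝ] E2)) y := h1.comp y h2
  rw [h3.fderiv]
  rfl

/-- The weak solution in the Euclidean plane. -/
def PSol (Ω : Set E2) (lam c : ℝ) (u : E2 → ℝ) (G : E2 → E2) : Prop :=
  MemLp u 2 (volume.restrict Ω) ∧ MemLp G 2 (volume.restrict Ω) ∧
    (∀ φ : E2 → ℝ, ContDiff ℝ 1 φ → HasCompactSupport φ → ∀ v : E2,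
      ∫ x in Ω, (u x - c) * (fderiv ℝ φ x v) = - ∫ x in Ω, @inner ℝ E2 _ (G x) v * φ x) ∧
    (∀ φ : E2 → ℝ, ContDiff ℝ 1 φ → HasCompactSupport φ →
      ∫ x in Ω, fderiv ℝ φ x (G x) = lam * ∫ x in Ω, u x * φ x) ∧
    ¬ (u =ᵐ[volume.restrict Ω] 0)

/-- The domain in the Euclidean plane. -/
def PDom (Ω : Set E2) : Prop :=
  IsOpen Ω ∧ Bornology.IsBounded Ω ∧ IsConnected Ω ∧ SimplyConnectedSpace Ω ∧
    Nonempty (frontier Ω ≃ₜ Metric.sphere (0 : E2) 1) ∧
    ∀ p ∈ frontier Ω, ∃ e f : E2, ‖e‖ = 1 ∧ ‖f‖ = 1 ∧ @inner ℝ E2 _ e f = 0 ∧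
      ∃ r : ℝ, 0 < r ∧ ∃ K : NNReal, ∃ g : ℝ → ℝ, LipschitzWith K g ∧
        ∀ x ∈ Metric.ball p r, (x ∈ Ω ↔ g (@inner ℝ E2 _ x e) < @inner ℝ E2 _ x f)

theorem dom_transfer {Om : Set ℂ} (hO : IsOpen Om) (hb : Bornology.IsBounded Om)
    (hc : IsConnected Om) (hs : SimplyConnectedSpace Om)
    (hf : Nonempty (frontier Om ≃ₜ Metric.sphere (0 : ℂ) 1))
    (hL : ∀ p ∈ frontier Om, ∃ e g : ℂ, ‖e‖ = 1 ∧ ‖g‖ = 1 ∧ @inner ℝ ℂ _ e g = 0 ∧
      ∃ s : ℝ, 0 < s ∧ ∃ K : NNReal, ∃ γ : ℝ → ℝ, LipschitzWith K γ ∧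
        ∀ x ∈ Metric.ball p s, (x ∈ Om ↔ γ (@inner ℝ ℂ _ x e) < @inner ℝ ℂ _ x g)) :
    PDom (JJ '' Om) := by
  obtain ⟨hf⟩ := hf
  refine ⟨JJ.toHomeomorph.isOpenMap _ hO, JJ.lipschitz.isBounded_image hb,
      hc.image _ JJ.continuous.continuousOn, ?_, ?_, ?_⟩
  · have h1 : Om ≃ₜ (JJ '' Om) := JJ.toHomeomorph.image Om
    exact h1.symm.toHomotopyEquiv.simplyConnectedSpace
  · have e1 : JJ '' frontier Om = frontier (JJ '' Om) := JJ.toHomeomorph.image_frontier Om
    have e2 : JJ '' Metric.sphere 0 1 = Metric.sphere 0 1 := by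
      rw [JJ.image_sphere, map_zero]
    have h1 : frontier Om ≃ₜ (JJ '' frontier Om) := JJ.toHomeomorph.image (frontier Om)
    have h2 : Metric.sphere (0 : ℂ) 1 ≃ₜ (JJ '' Metric.sphere (0 : ℂ) 1) :=
      JJ.toHomeomorph.image (Metric.sphere (0 : ℂ) 1)
    exact ⟨((Homeomorph.setCongr e1).symm.trans h1.symm).trans
      (hf.trans (h2.trans (Homeomorph.setCongr e2)))⟩
  · intro p hp
    have e1 : JJ '' frontier Om = frontier (JJ '' Om) := JJ.toHomeomorph.image_frontier Om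
    rw [← e1] at hp
    obtain ⟨q, hq, rfl⟩ := hp
    obtain ⟨e, g, he, hg, heg, s, hs, K, γ, hγ, h⟩ := hL q hq
    refine ⟨JJ e, JJ g, by rwa [JJ.norm_map], by rwa [JJ.norm_map],
      by rwa [JJ.inner_map_map], s, hs, K, γ, hγ, fun x hx => ?_⟩
    obtain ⟨y, rfl⟩ := JJ.surjective x
    rw [JJ.inner_map_map, JJ.inner_map_map, JJ.injective.mem_set_image]
    refine h y ?_
    rw [Metric.mem_ball, JJ.dist_map] at hx
    exact hx

theorem nd_transfer {Om : Set ℂ} (hnb : ∀ (a : ℂ) (s : ℝ), Om ≠ Metric.ball a s) (a : E2) (s : ℝ) :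
    JJ '' Om ≠ Metric.ball a s := by
  intro har
  refine hnb (JJ.symm a) s ?_
  have h1 := congrArg (fun s => JJ.symm '' s) har
  simp only [JJ.symm.image_ball] at h1
  rw [← h1, image_image]
  simp only [JJ.symm_apply_apply, image_id']

theorem sol_transfer {Om : Set ℂ} {lam c : ℝ} {u : ℂ → ℝ} {G : ℂ → ℂ} (hW : Weak Om lam c u G) :
    PSol (JJ '' Om) lam c (fun x => u (JJ.symm x)) (fun x => JJ (G (JJ.symm x))) := by
  obtain ⟨hu, hG, w1, w2, hne⟩ := hW
  have pre : JJ.symm ⁻¹' Om = JJ '' Om := (JJ.image_eq_preimage_symm Om).symm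
  have mps : MeasurePreserving JJ.symm (volume.restrict (JJ '' Om)) (volume.restrict Om) := by
    have h1 : MeasurePreserving JJ.symm (volume : Measure E2) (volume : Measure ℂ) :=
      JJ.symm.measurePreserving
    have h2 := h1.restrict_preimage_emb JJ.symm.toHomeomorph.measurableEmbedding Om
    rwa [pre] at h2
  refine ⟨hu.comp_measurePreserving mps, ?_, ?_, ?_, ?_⟩
  · have h1 := hG.comp_measurePreserving mps
    exact (JJ.toContinuousLinearEquiv : ℂ →L[ℝ] E2).comp_memLp' h1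
  · intro φ hφ hφ' v
    rw [tr_mp.setIntegral_image_emb tr_me, tr_mp.setIntegral_image_emb tr_me]
    have h1 : ContDiff ℝ 1 (fun z => φ (JJ z)) := hφ.comp JJ.contDiff
    have h2 : HasCompactSupport (fun z => φ (JJ z)) :=
      hφ'.comp_homeomorph JJ.toHomeomorph
    have h3 := w1 _ h1 h2 (JJ.symm v)
    simp only [tr_fd hφ, JJ.apply_symm_apply] at h3
    simp only [JJ.symm_apply_apply]
    rw [h3]
    congr 1
    refine integral_congr_ae (Eventually.of_forall fun x => ?_)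
    simp only
    rw [← JJ.inner_map_map, JJ.apply_symm_apply]
  · intro φ hφ hφ'
    rw [tr_mp.setIntegral_image_emb tr_me, tr_mp.setIntegral_image_emb tr_me]
    have h1 : ContDiff ℝ 1 (fun z => φ (JJ z)) := hφ.comp JJ.contDiff
    have h2 : HasCompactSupport (fun z => φ (JJ z)) :=
      hφ'.comp_homeomorph JJ.toHomeomorph
    have h3 := w2 _ h1 h2
    simp only [tr_fd hφ] at h3
    simp only [JJ.symm_apply_apply]
    exact h3
  · intro h1
    refine hne ?_
    have h2 : MeasurePreserving JJ (volume.restrict Om) (volume.restrict (JJ '' Om)) :=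
      tr_mp.restrict_image_emb tr_me Om
    have h3 := h2.quasiMeasurePreserving.ae h1
    filter_upwards [h3] with x hx
    simpa using hx

/-- an isometry of the plane preserves the measure -/
theorem mp_isom (σ : E2 ≃ᵢ E2) : MeasurePreserving σ volume volume := by
  have h : ∀ x, σ x = σ.toRealAffineIsometryEquiv.linearIsometryEquiv x + σ 0 := by
    intro x
    have := σ.toRealAffineIsometryEquiv.map_vadd 0 x
    simpa using this
  have h1 : MeasurePreserving (σ.toRealAffineIsometryEquiv.linearIsometryEquiv) volume volume :=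
    LinearIsometryEquiv.measurePreserving _
  have h2 : MeasurePreserving (fun y : E2 => y + σ 0) volume volume :=
    measurePreserving_add_right volume (σ 0)
  have h3 := h2.comp h1
  have e : (σ : E2 → E2) = (fun y : E2 => y + σ 0) ∘
      (σ.toRealAffineIsometryEquiv.linearIsometryEquiv) := by
    funext x
    exact h x
  rw [e]
  exact h3

/-- the Pompeiu property fails (adapted from a proof of helper767) -/
theorem pompeiu {Om : Set ℂ} {c : ℝ} {u : ℂ → ℝ} {G : ℂ → ℂ} (hO : IsOpen Om)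
    (hb : Bornology.IsBounded Om) (hc : c ≠ 0) (hW : Weak Om 1 c u G) (σ : E2 ≃ᵢ E2) :
    ∫ x in σ '' (JJ '' Om), Real.cos (x 0) = 0 := by
  obtain ⟨w1, w2, w3, w4, -⟩ := hW
  rw [(mp_isom σ).setIntegral_image_emb σ.toHomeomorph.measurableEmbedding,
    (LinearIsometryEquiv.measurePreserving JJ).setIntegral_image_emb
      JJ.toHomeomorph.measurableEmbedding]
  set L := σ.toRealAffineIsometryEquiv.linearIsometryEquiv with hL
  have h : ∀ x, σ x = L x + σ 0 := by
    intro x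
    have := σ.toRealAffineIsometryEquiv.map_vadd 0 x
    simpa using this
  set e0 : E2 := EuclideanSpace.single 0 1 with he0
  set M : ℂ ≃ₗᵢ[ℝ] E2 := JJ.trans L with hM
  set ξ : ℂ := M.symm e0 with hξ
  have hξn : ‖ξ‖ = 1 := by
    rw [hξ, M.symm.norm_map, he0]
    simp
  have hkey : ∀ z : ℂ, (σ (JJ z)) 0 = ((starRingEnd ℂ) ξ * z + ((σ 0 0 : ℝ) : ℂ)).re := by
    intro z
    have h1 : (L (JJ z)) 0 = @inner ℝ E2 _ e0 (M z) := by
      rw [he0, EuclideanSpace.inner_single_left]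
      simp [hM]
    have h2 : @inner ℝ E2 _ e0 (M z) = @inner ℝ ℂ _ ξ z := by
      rw [← M.inner_map_map ξ z, hξ, M.apply_symm_apply]
    have h3 : (σ (JJ z)) 0 = (L (JJ z)) 0 + σ 0 0 := by
      rw [h (JJ z)]
      rfl
    rw [h3, h1, h2, Complex.inner, Complex.add_re, Complex.ofReal_re, mul_comm z]
  have hfin := Pool.Agent.N596.SC.fourier hO hb hc w1 w2 w3 w4 ((starRingEnd ℂ) ξ)
    ((σ 0 0 : ℝ) : ℂ) (by rw [RCLike.norm_conj, hξn])
  rw [← hfin]
  refine integral_congr_ae (Eventually.of_forall fun z => ?_)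
  simp only
  rw [hkey z]

end Pool.Agent.H957.HE
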