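import Pool.Agent.H957.HE.Par
import Pool.Agent.H957.HE.Tr
import Pool.Agent.H957.HE.SC.AB
import Pool.Agent.H957.HE.SC.B1
import Pool.Agent.H957.HE.SC.B2
import Pool.Agent.H957.HE.SC.B3
import Pool.Agent.H957.HE.SC.SELF
import Pool.Agent.H957.HE.SC.CTR
import Pool.Agent.H957.HE.SC.LX
import Pool.Agent.H957.HE.SC.FIX
import Pool.Agent.H957.HE.SC.HG
import Pool.Agent.H957.HE.SC.VG
import Pool.Agent.H957.HE.SC.YG
import Pool.Agent.H957.HE.SC.RV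
import Pool.Agent.H957.HE.SC.GG
import Pool.Agent.H957.HE.SC.SGN
import Pool.Agent.H957.HE.SC.EXI
import Pool.Agent.H957.HE.SC.FN1
import Pool.Agent.H957.HE.SC.FN2
import Pool.Agent.H957.HE.SC.FN3
import Pool.Agent.H957.HE.SC.FN4
import Pool.Agent.H957.HE.SC.FN5
import Pool.Graph.R_pool_sql_team_seeded_63374d34.N229.SC.A1
import Pool.Graph.R_pool_sql_team_seeded_63374d34.N229.SC.A2
import Pool.Graph.R_pool_sql_team_seeded_63374d34.N229.SC.A3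
import Pool.Graph.R_pool_sql_team_seeded_63374d34.N229.SC.EH
import Pool.Graph.R_pool_sql_team_seeded_63374d34.N229.SC.EV
import Pool.Graph.R_pool_sql_team_seeded_63374d34.N229.SC.N1
import Pool.Graph.R_pool_sql_team_seeded_63374d34.N229.SC.PSM
import Pool.Graph.R_pool_sql_team_seeded_63374d34.N229.SC.PDE
import Pool.Graph.R_pool_sql_team_seeded_63374d34.N229.SC.INJ
import Pool.Graph.R_pool_sql_team_seeded_63374d34.N229.SC.TOP
import Pool.Graph.R_pool_sql_team_seeded_63374d34.N229.SC.LIP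
import Pool.Graph.R_pool_sql_team_seeded_63374d34.N229.SC.NB
import Pool.Graph.R_pool_sql_team_seeded_63374d34.N229.SC.DIV
import Pool.Graph.R_pool_sql_team_seeded_63374d34.N229.SC.CV
import Pool.Graph.R_pool_sql_team_seeded_63374d34.N229.SC.WK1
import Pool.Graph.R_pool_sql_team_seeded_63374d34.N229.SC.WK2
import Pool.Graph.R_pool_sql_team_seeded_63374d34.N229.SC.WK3

/-!
Project HE (helper957), problem MP_83fd13_an: counterexamples to Schiffer's conjecture for all large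
zeros of `J_1`, as close to the disc as we like.
-/

set_option autoImplicit false

open Set Filter Topology MeasureTheory

namespace Pool.Agent.H957.HE

open Pool.Agent.N229.SC

/-- the conformal map is close to `ρ z` -/
theorem near (hEH : S_EH) (hB1 : SC.S_B1) (P : Par) (X : ℝ) (h v : W) (y : ℕ → A)
    (hF : SC.Full P X h v y) (z : ℂ) (hz : ‖z‖ ≤ 1) :
    ‖fF P h z - P.ρ * z‖ ≤ 5 * X ∧ ‖deriv (fF P h) z - P.ρ‖ ≤ 20 * X * P.ρ := by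
  have hG := hF.good
  have hX0 := hF.X_pos
  have hX1 := hF.X_le
  have hρ : 0 < P.ρ := lt_of_lt_of_le (by norm_num) hG.rho
  have hnu1 := hG.nu1
  have hnu2 := hG.nu2
  have hnuρ : (P.n : ℝ) = P.nu * P.ρ := by
    unfold Par.nu
    field_simp
  have hn : 4 / 5 * P.ρ ≤ P.n := by
    rw [hnuρ]
    nlinarith
  have hn8 : (8000 : ℝ) ≤ P.n := by
    have := hG.rho
    linarith
  have hnp : (0 : ℝ) < P.n := by linarith
  have hn0 : P.n ≠ 0 := by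
    rintro h0
    rw [h0] at hn8
    norm_num at hn8
  have hh : ‖h‖ ≤ 2 * X := hF.sol.nh
  have hh0 := norm_nonneg h
  obtain ⟨⟨b1, b2, -⟩, -⟩ := hB1 P hG h (by linarith)
  have hPhi : ‖Phi P h‖ ≤ 164 / 100 * X := by
    refine b1.trans ?_
    nlinarith
  have hbeta : ‖beta P h‖ ≤ 1312 / 100 * X := by
    refine b2.trans ?_
    nlinarith
  obtain ⟨-, e2, -, -, -, -, -, -⟩ := hEH wW wA_le_wW
  obtain ⟨-, e2', -, -, -, -, -, -⟩ := hEH wA (fun j => le_rfl)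
  have hRad : (1 : ℝ) < Rad := by norm_num [Rad]
  have hs : ‖z ^ P.n‖ ≤ Rad := by
    rw [norm_pow]
    exact (pow_le_one₀ (norm_nonneg _) hz).trans hRad.le
  have h3 := (e2 (Phi P h) (z ^ P.n) hs).trans hPhi
  have h2 := (e2' (beta P h) (z ^ P.n) hs).trans hbeta
  obtain ⟨b, hb⟩ : ∃ b, b = evh (beta P h) (z ^ P.n) := ⟨_, rfl⟩
  obtain ⟨u, hu⟩ : ∃ u, u = evh (Phi P h) (z ^ P.n) / (P.n : ℂ) := ⟨_, rfl⟩
  have hun : ‖u‖ ≤ 205 / 100 * X / P.ρ := by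
    rw [hu, norm_div, Complex.norm_natCast, div_le_div_iff₀ hnp hρ]
    have h4 : ‖evh (Phi P h) (z ^ P.n)‖ * P.ρ ≤ 164 / 100 * X * P.ρ :=
      mul_le_mul_of_nonneg_right h3 hρ.le
    have h5 : 205 / 100 * X * (4 / 5 * P.ρ) ≤ 205 / 100 * X * P.n :=
      mul_le_mul_of_nonneg_left hn (by positivity)
    linarith
  have hρX : X / P.ρ ≤ X / 10000 := div_le_div_of_nonneg_left hX0.le (by norm_num) hG.rho
  have hun1 : ‖u‖ ≤ 1 := by
    have : 205 / 100 * X / P.ρ = 205 / 100 * (X / P.ρ) := by ring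
    rw [this] at hun
    linarith
  have hexp : ‖Complex.exp u - 1‖ ≤ 41 / 10 * X / P.ρ := by
    refine (Complex.norm_exp_sub_one_le hun1).trans ?_
    have : 41 / 10 * X / P.ρ = 2 * (205 / 100 * X / P.ρ) := by ring
    linarith
  constructor
  · have h4 : fF P h z - P.ρ * z = P.ρ * z * (Complex.exp u - 1) := by
      unfold fF
      rw [← hu]
      ring
    rw [h4, norm_mul, norm_mul, Complex.norm_real, Real.norm_eq_abs, abs_of_pos hρ]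
    calc P.ρ * ‖z‖ * ‖Complex.exp u - 1‖ ≤ P.ρ * 1 * (41 / 10 * X / P.ρ) := by gcongr
      _ = 41 / 10 * X := by field_simp
      _ ≤ 5 * X := by linarith
  · have hz' : z ∈ Metric.ball (0 : ℂ) (rF P) := by
      rw [mem_ball_zero_iff]
      refine lt_of_le_of_lt hz ?_
      unfold rF
      exact Real.one_lt_rpow (by norm_num [Rad]) (by positivity)
    rw [(SC.fn1_deriv hEH P hn0 h hz').deriv, ← hb, ← hu]
    rw [← hb] at h2
    have h4 : (P.ρ : ℂ) * Complex.exp u * (1 + b) - P.ρ =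
        P.ρ * ((Complex.exp u - 1) * (1 + b) + b) := by ring
    rw [h4, norm_mul, Complex.norm_real, Real.norm_eq_abs, abs_of_pos hρ]
    have h5 : ‖(Complex.exp u - 1) * (1 + b) + b‖ ≤ 20 * X := by
      refine (norm_add_le _ _).trans ?_
      rw [norm_mul]
      have h6 : ‖1 + b‖ ≤ 2 := by
        refine (norm_add_le _ _).trans ?_
        rw [norm_one]
        linarith
      have h7 : ‖Complex.exp u - 1‖ * ‖1 + b‖ ≤ (41 / 10 * X / P.ρ) * 2 :=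
        mul_le_mul hexp h6 (norm_nonneg _) (by positivity)
      have h8 : 41 / 10 * X / P.ρ = 41 / 10 * (X / P.ρ) := by ring
      rw [h8] at h7
      linarith
    calc P.ρ * ‖(Complex.exp u - 1) * (1 + b) + b‖ ≤ P.ρ * (20 * X) :=
          mul_le_mul_of_nonneg_left h5 hρ.le
      _ = 20 * X * P.ρ := by ring

/-- the classical solution -/
theorem classical (ε : ℝ) (hε : 0 < ε) : ∃ ρ₀ : ℝ, ∀ ρ : ℝ, ρ₀ ≤ ρ → Fb ρ 1 = 0 →
    ∃ (r r' c : ℝ) (f : ℂ → ℂ) (U : ℂ → ℝ) (S : ℂ → ℂ), Conf ρ r f ∧ Nd f ∧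
      1 < r' ∧ r' ≤ r ∧ Cl r' c f U S ∧
      ∀ z : ℂ, ‖z‖ ≤ 1 → ‖f z - ρ * z‖ ≤ ε ∧ ‖deriv f z - ρ‖ ≤ ε * ρ := by
  have hA1 : S_A1 := proof_A1
  have hA2 : S_A2 := proof_A2 hA1
  have hA3 : S_A3 := proof_A3 hA1 hA2
  have hAB : SC.S_AB := SC.proof_AB
  have hB1 : SC.S_B1 := SC.proof_B1 hA1 hA2 hA3
  have hB2 : SC.S_B2 := SC.proof_B2 hA1 hA2 hA3 hAB hB1
  have hB3 : SC.S_B3 := SC.proof_B3 hA1 hA2 hA3 hAB hB1 hB2
  have hSELF : SC.S_SELF := SC.proof_SELF hA1 hA2 hA3 hAB hB1 hB2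
  have hCTR : SC.S_CTR := SC.proof_CTR hA1 hA2 hA3 hAB hB1 hB2 hB3
  have hLX : SC.S_LX := SC.proof_LX hA1 hA2 hA3 hAB hB1 hB2
  have hFIX : SC.S_FIX := SC.proof_FIX hA1 hA2 hSELF hCTR hLX
  have hHG : SC.S_HG := SC.proof_HG hA1 hA2 hA3 hAB hB1 hB2
  have hVG : SC.S_VG := SC.proof_VG hA1 hA2 hA3 hAB hB1 hB2
  have hYG : SC.S_YG := SC.proof_YG hA1 hA2 hA3 hAB hB1 hB2
  have hRV : SC.S_RV := SC.proof_RV hA1 hA2 hA3 hAB hB1 hB2
  have hGG : SC.S_GG := SC.proof_GG hA1 hA2 hA3 hAB hB1 hB2 hRV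
  have hSGN : SC.S_SGN := SC.proof_SGN hA1 hA2 hAB hHG hVG hYG hRV hGG
  have hEXI : SC.S_EXI := SC.proof_EXI hA1 hA2 hFIX hHG hSGN
  have hEH : S_EH := proof_EH hA1 hA2
  have hEV : S_EV := proof_EV hA1 hA2 hA3
  have hFN1 : SC.S_FN1 := SC.proof_FN1 hA1 hA2 hA3 hB1 hEH hEV
  have hFN2 : SC.S_FN2 := SC.proof_FN2 hA1 hA2 hA3 hAB hB1 hB2 hEH
  have hFN3 : SC.S_FN3 := SC.proof_FN3 hA1 hA2 hA3 hAB hB1 hB2 hEH
  have hFN4 : SC.S_FN4 := SC.proof_FN4 hA1 hA2 hA3 hAB hB1 hB2 hEH hEV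
  have hFN5 : SC.S_FN5 := SC.proof_FN5 hA1 hA2 hA3 hAB hB1 hB2 hEH hEV
  have hPDE : S_PDE := proof_PDE proof_PSM
  -- the window
  set α : ℝ := min (1 / 10 ^ 9) ((ε / 200) ^ 2) with hα
  have hα0 : 0 < α := lt_min (by norm_num) (by positivity)
  obtain ⟨ρ₀, -, hρ₀⟩ := exists_good proof_N1 hα0 (min_le_left _ _)
  refine ⟨ρ₀, fun ρ hρ hz => ?_⟩
  obtain ⟨P, hG, hbd, hPρ, hPa⟩ := hρ₀ ρ hρ hz
  obtain ⟨X, h, v, y, hX, hX', hXs, hsol, hO, hh⟩ := hEXI P hG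
  have hF : SC.Full P X h v y := ⟨hG, hbd, hX, hX', hsol, hO, hh⟩
  have hXε : 20 * X ≤ ε := by
    have h1 : P.a 0 ≤ 31 / 10 * (ε / 200) ^ 2 := by
      have : α ≤ (ε / 200) ^ 2 := min_le_right _ _
      linarith
    have h2 : Real.sqrt (P.a 0) ≤ ε / 100 := by
      rw [Real.sqrt_le_left (by positivity)]
      nlinarith [sq_nonneg ε]
    linarith
  obtain ⟨hconf, hnd⟩ := hFN1 P X h v y hF
  obtain ⟨hQd, hQb⟩ := hFN2 P X h v y hF
  have hStr : Str P.ρ (rF P) (fF P h) (QF P X h v y) :=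
    ⟨hconf, hQd, hQb, hFN3 P X h v y hF, hFN4 P X h v y hF, hFN5 P X h v y hF⟩
  obtain ⟨r', c, U, S, hr1, hr2, hCl⟩ := hPDE _ _ _ _ hStr
  refine ⟨rF P, r', c, fF P h, U, S, hPρ ▸ hconf, hnd, hr1, hr2, hCl, ?_⟩
  intro z hz'
  obtain ⟨n1, n2⟩ := near hEH hB1 P X h v y hF z hz'
  rw [hPρ] at n1 n2
  have hρ0 : 0 < ρ := hPρ ▸ hconf.rho_pos
  exact ⟨n1.trans (by linarith), n2.trans (mul_le_mul_of_nonneg_right hXε hρ0.le)⟩

/-- the domains in the plane -/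
theorem final (ε : ℝ) (hε : 0 < ε) : ∃ ρ₀ : ℝ, ∀ ρ : ℝ, ρ₀ ≤ ρ → Fb ρ 1 = 0 →
    ∃ (f : ℂ → ℂ) (r : ℝ), 1 < r ∧ DifferentiableOn ℂ f (Metric.ball 0 r) ∧
      InjOn f (Metric.ball 0 r) ∧
      (∀ z : ℂ, ‖z‖ ≤ 1 → ‖f z - ρ * z‖ ≤ ε ∧ ‖deriv f z - ρ‖ ≤ ε * ρ) ∧
      PDom (JJ '' (f '' Metric.ball 0 1)) ∧
      (∀ (a : E2) (s : ℝ), JJ '' (f '' Metric.ball 0 1) ≠ Metric.ball a s) ∧
      (∃ (c : ℝ) (u : E2 → ℝ) (G : E2 → E2), c ≠ 0 ∧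
        PSol (JJ '' (f '' Metric.ball 0 1)) 1 c u G) ∧
      ∀ σ : E2 ≃ᵢ E2, ∫ x in σ '' (JJ '' (f '' Metric.ball 0 1)), Real.cos (x 0) = 0 := by
  obtain ⟨ρ₀, H⟩ := classical ε hε
  have hINJ := proof_INJ
  have hTOP := proof_TOP hINJ
  have hLIP := proof_LIP hINJ hTOP
  have hNB := proof_NB hINJ hTOP
  have hCV := proof_CV hINJ
  have hDIV := proof_DIV
  have hWK1 := proof_WK1 hINJ hTOP hCV
  have hWK2 := proof_WK2 hINJ hTOP hCV hDIV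
  have hWK3 := proof_WK3 hINJ hTOP hCV hDIV
  refine ⟨ρ₀, fun ρ hρ hz => ?_⟩
  obtain ⟨r, r', c, f, U, S, hconf, hnd, hr1, hr2, hCl, hnear⟩ := H ρ hρ hz
  obtain ⟨t1, t2, t3, t4, t5, t6⟩ := hTOP _ _ _ hconf
  obtain ⟨w1, w2, w3⟩ := hWK1 _ _ _ _ _ _ _ hconf hr1 hr2 hCl
  have hW : Weak (Om f) 1 c (uF f U) (GF f S) :=
    ⟨w1, w2, hWK2 _ _ _ _ _ _ _ hconf hr1 hr2 hCl, hWK3 _ _ _ _ _ _ _ hconf hr1 hr2 hCl, w3⟩
  refine ⟨f, r, hconf.r_gt, hconf.f_diff, (hINJ _ _ _ hconf).2, hnear, ?_, ?_,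
    ⟨c, _, _, hCl.c_ne, sol_transfer hW⟩, fun σ => pompeiu t1 t2 hCl.c_ne hW σ⟩
  · refine dom_transfer t1 t2 t3 t4 t6 ?_
    intro p hp
    have hp' : p ∈ frontier (Om f) := hp
    rw [t5] at hp'
    obtain ⟨z, hz, rfl⟩ := hp'
    exact hLIP _ _ _ hconf z (by simpa using hz)
  · exact fun a s => nd_transfer (hNB _ _ _ hconf hnd) a s

end Pool.Agent.H957.HE
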