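import Mathlib

/-!
Project HE (helper957), problem MP_83fd13_an: a solution of the recurrence
`x_m = 2 (m + 1) / ρ x_{m+1} - x_{m+2}` has, for large `ρ`, an index `n` with `n / ρ` in `[4/5, 41/50]`
and `- x_n / x_{n+1}` in a prescribed small interval: near `m = ρ cos θ` the recurrence is close to a
rotation by the angle `θ`, and `θ = (π + ε) / 5`.
-/

set_option autoImplicit false

open Set Filter Topology

namespace Pool.Agent.H957.HE

/-- the angle -/
noncomputable def th (α : ℝ) : ℝ := (Real.pi + α / 2) / 5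

theorem abs_sin_sub (x y : ℝ) : |Real.sin x - Real.sin y| ≤ |x - y| := by
  rw [Real.sin_sub_sin, abs_mul, abs_mul, abs_two]
  have h1 : |Real.sin ((x - y) / 2)| ≤ |(x - y) / 2| := Real.abs_sin_le_abs
  have h2 : |Real.cos ((x + y) / 2)| ≤ 1 := Real.abs_cos_le_one _
  have h3 : |(x - y) / 2| = |x - y| / 2 := by rw [abs_div, abs_two]
  rw [h3] at h1
  nlinarith [abs_nonneg (Real.sin ((x - y) / 2)), abs_nonneg (Real.cos ((x + y) / 2)),
    abs_nonneg (x - y)]

theorem abs_cos_sub (x y : ℝ) : |Real.cos x - Real.cos y| ≤ |x - y| := by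
  have h := abs_sin_sub (Real.pi / 2 - x) (Real.pi / 2 - y)
  rw [Real.sin_pi_div_two_sub, Real.sin_pi_div_two_sub] at h
  have e : Real.pi / 2 - x - (Real.pi / 2 - y) = -(x - y) := by ring
  rwa [e, abs_neg] at h

theorem sqrt5 : 2.236 ≤ √5 ∧ √5 ≤ 2.2361 := by
  constructor
  · apply Real.le_sqrt_of_sq_le
    norm_num
  · rw [Real.sqrt_le_left (by norm_num)]
    norm_num

theorem cos5 : 0.809 ≤ Real.cos (Real.pi / 5) ∧ Real.cos (Real.pi / 5) ≤ 0.8091 := by
  rw [Real.cos_pi_div_five]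
  obtain ⟨h1, h2⟩ := sqrt5
  constructor <;> linarith

theorem sin5 : 0.585 ≤ Real.sin (Real.pi / 5) ∧ Real.sin (Real.pi / 5) ≤ 0.59 := by
  obtain ⟨h1, h2⟩ := cos5
  have h3 := Real.sin_sq_add_cos_sq (Real.pi / 5)
  have h4 : 0 ≤ Real.sin (Real.pi / 5) :=
    Real.sin_nonneg_of_nonneg_of_le_pi (by positivity) (by linarith [Real.pi_pos])
  constructor
  · nlinarith
  · nlinarith

variable {α : ℝ} (hα : 0 < α) (hα' : α ≤ 1 / 10 ^ 9)

include hα hα' in
theorem cos_th : 0.8089 ≤ Real.cos (th α) ∧ Real.cos (th α) ≤ 0.8092 := by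
  obtain ⟨h1, h2⟩ := cos5
  have h3 := abs_cos_sub (th α) (Real.pi / 5)
  have h4 : |th α - Real.pi / 5| ≤ 1 / 10 ^ 9 := by
    have : th α - Real.pi / 5 = α / 10 := by
      unfold th
      ring
    rw [this, abs_of_pos (by positivity)]
    linarith
  have h5 := abs_le.1 (h3.trans h4)
  constructor <;> norm_num at * <;> linarith [h5.1, h5.2]

include hα hα' in
theorem sin_near {t : ℝ} (ht : |t| ≤ 1 / 10 ^ 8) :
    0.58 ≤ Real.sin (th α + t) ∧ Real.sin (th α + t) ≤ 0.6 := by
  obtain ⟨h1, h2⟩ := sin5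
  have h3 := abs_sin_sub (th α + t) (Real.pi / 5)
  have h4 : |th α + t - Real.pi / 5| ≤ 2 / 10 ^ 8 := by
    have : th α + t - Real.pi / 5 = α / 10 + t := by
      unfold th
      ring
    rw [this]
    refine (abs_add_le _ _).trans ?_
    have : |α / 10| ≤ 1 / 10 ^ 9 := by
      rw [abs_of_pos (by positivity)]
      linarith
    linarith
  have h5 := abs_le.1 (h3.trans h4)
  constructor <;> norm_num at * <;> linarith [h5.1, h5.2]

include hα hα' in
theorem sin_th_pos : 0 < Real.sin (th α) := by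
  have := (sin_near hα hα' (t := 0) (by norm_num)).1
  rw [add_zero] at this
  linarith

include hα hα' in
/-- amplitude and phase -/
theorem phase (y0 y1 : ℝ) : ∃ A φ : ℝ, 0 ≤ A ∧ y0 = A * Real.cos φ ∧
    y1 = A * Real.cos (th α + φ) ∧ |y0| + |y1| ≤ 2 * A := by
  have hs := sin_th_pos hα hα'
  set w : ℂ := ⟨y0, (y0 * Real.cos (th α) - y1) / Real.sin (th α)⟩ with hw
  have h1 : ‖w‖ * Real.cos (Complex.arg w) = y0 := Complex.norm_mul_cos_arg w
  have h2 : ‖w‖ * Real.sin (Complex.arg w) = (y0 * Real.cos (th α) - y1) / Real.sin (th α) :=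
    Complex.norm_mul_sin_arg w
  have h3 : y1 = ‖w‖ * Real.cos (th α + Complex.arg w) := by
    rw [Real.cos_add]
    have h4 : ‖w‖ * Real.sin (Complex.arg w) * Real.sin (th α) = y0 * Real.cos (th α) - y1 := by
      rw [h2]
      field_simp
    linear_combination h4 - Real.cos (th α) * h1
  refine ⟨‖w‖, Complex.arg w, norm_nonneg _, h1.symm, h3, ?_⟩
  have h5 : |y0| ≤ ‖w‖ := by
    rw [← h1, abs_mul, abs_of_nonneg (norm_nonneg w)]
    exact mul_le_of_le_one_right (norm_nonneg _) (Real.abs_cos_le_one _)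
  have h6 : |y1| ≤ ‖w‖ := by
    rw [h3, abs_mul, abs_of_nonneg (norm_nonneg w)]
    exact mul_le_of_le_one_right (norm_nonneg _) (Real.abs_cos_le_one _)
  linarith

/-- comparison of the recurrence with the rotation -/
theorem compare (α : ℝ) (N : ℕ) (y g : ℕ → ℝ) (η : ℝ) (hη : 0 ≤ η)
    (hrec : ∀ j, j + 2 ≤ N → y (j + 2) = 2 * g j * y (j + 1) - y j)
    (hg : ∀ j, j + 2 ≤ N → |g j| ≤ 1 ∧ |g j - Real.cos (th α)| ≤ η) (A φ : ℝ)
    (h0 : y 0 = A * Real.cos φ) (h1 : y 1 = A * Real.cos (th α + φ)) :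
    ∀ j, j ≤ N → |y j - A * Real.cos (j * th α + φ)| ≤ η * (|y 0| + |y 1|) * 6 ^ j := by
  set S := |y 0| + |y 1| with hS
  have hS0 : 0 ≤ S := by positivity
  have hy : ∀ j, j + 1 ≤ N → |y j| ≤ S * 3 ^ j ∧ |y (j + 1)| ≤ S * 3 ^ (j + 1) := by
    intro j
    induction j with
    | zero =>
      intro _
      rw [pow_zero, mul_one, zero_add, pow_one]
      constructor
      · linarith [abs_nonneg (y 1)]
      · linarith [abs_nonneg (y 0), abs_nonneg (y 1)]
    | succ j ih =>
      intro hj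
      obtain ⟨a1, a2⟩ := ih (by omega)
      refine ⟨a2, ?_⟩
      obtain ⟨b1, -⟩ := hg j (by omega)
      rw [show j + 1 + 1 = j + 2 from rfl, hrec j (by omega)]
      have c1 : |2 * g j * y (j + 1) - y j| ≤ 2 * |y (j + 1)| + |y j| := by
        refine (abs_sub _ _).trans ?_
        rw [abs_mul, abs_mul, abs_two]
        have := mul_le_mul_of_nonneg_right b1 (abs_nonneg (y (j + 1)))
        linarith
      have c2 : (0 : ℝ) ≤ S * 3 ^ j := by positivity
      rw [pow_succ] at a2
      calc |2 * g j * y (j + 1) - y j| ≤ 2 * |y (j + 1)| + |y j| := c1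
        _ ≤ 2 * (S * (3 ^ j * 3)) + S * 3 ^ j := by linarith
        _ ≤ S * 3 ^ (j + 2) := by
          rw [pow_add]
          nlinarith
  have key : ∀ j, j + 1 ≤ N → |y j - A * Real.cos (j * th α + φ)| ≤ η * S * 6 ^ j ∧
      |y (j + 1) - A * Real.cos ((j + 1 : ℕ) * th α + φ)| ≤ η * S * 6 ^ (j + 1) := by
    intro j
    induction j with
    | zero =>
      intro _
      have e1 : y 0 - A * Real.cos ((0 : ℕ) * th α + φ) = 0 := by
        rw [h0]
        simp
      have e2 : y (0 + 1) - A * Real.cos ((0 + 1 : ℕ) * th α + φ) = 0 := by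
        rw [zero_add, h1]
        simp
      rw [e1, e2, abs_zero]
      constructor <;> positivity
    | succ j ih =>
      intro hj
      obtain ⟨a1, a2⟩ := ih (by omega)
      refine ⟨a2, ?_⟩
      obtain ⟨-, b2⟩ := hg j (by omega)
      obtain ⟨-, y2⟩ := hy j (by omega)
      have hcos : Real.cos ((j + 1 + 1 : ℕ) * th α + φ) =
          2 * Real.cos (th α) * Real.cos ((j + 1 : ℕ) * th α + φ) - Real.cos (j * th α + φ) := by
        have e1 : ((j + 1 + 1 : ℕ) : ℝ) * th α + φ = ((j + 1 : ℕ) * th α + φ) + th α := by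
          push_cast
          ring
        have e2 : ((j : ℕ) : ℝ) * th α + φ = ((j + 1 : ℕ) * th α + φ) - th α := by
          push_cast
          ring
        rw [e1, e2, Real.cos_add, Real.cos_sub]
        ring
      have e3 : y (j + 1 + 1) - A * Real.cos ((j + 1 + 1 : ℕ) * th α + φ) =
          2 * Real.cos (th α) * (y (j + 1) - A * Real.cos ((j + 1 : ℕ) * th α + φ)) -
          (y j - A * Real.cos (j * th α + φ)) + 2 * (g j - Real.cos (th α)) * y (j + 1) := by
        rw [hcos, show j + 1 + 1 = j + 2 from rfl, hrec j (by omega)]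
        ring
      rw [e3]
      have c1 : |2 * Real.cos (th α) * (y (j + 1) - A * Real.cos ((j + 1 : ℕ) * th α + φ))| ≤
          2 * (η * S * 6 ^ (j + 1)) := by
        rw [abs_mul, abs_mul, abs_two]
        have := mul_le_mul (Real.abs_cos_le_one (th α)) a2 (abs_nonneg _) zero_le_one
        linarith
      have c2 : |2 * (g j - Real.cos (th α)) * y (j + 1)| ≤ 2 * (η * (S * 3 ^ (j + 1))) := by
        rw [abs_mul, abs_mul, abs_two]
        have := mul_le_mul b2 y2 (abs_nonneg _) hη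
        linarith
      have c3 : (3 : ℝ) ^ (j + 1) ≤ 6 ^ (j + 1) := pow_le_pow_left₀ (by norm_num) (by norm_num) _
      have c4 : η * (S * 3 ^ (j + 1)) ≤ η * S * 6 ^ (j + 1) := by
        rw [← mul_assoc]
        exact mul_le_mul_of_nonneg_left c3 (by positivity)
      have c5 : η * S * 6 ^ j ≤ η * S * 6 ^ (j + 1) :=
        mul_le_mul_of_nonneg_left (pow_le_pow_right₀ (by norm_num) (by omega)) (by positivity)
      have c6 : η * S * 6 ^ (j + 1 + 1) = 6 * (η * S * 6 ^ (j + 1)) := by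
        rw [pow_succ 6 (j + 1)]
        ring
      have c7 := (abs_add_le (2 * Real.cos (th α) * (y (j + 1) - A * Real.cos ((j + 1 : ℕ) * th α + φ)) -
          (y j - A * Real.cos (j * th α + φ))) (2 * (g j - Real.cos (th α)) * y (j + 1)))
      have c8 := abs_sub (2 * Real.cos (th α) * (y (j + 1) - A * Real.cos ((j + 1 : ℕ) * th α + φ)))
          (y j - A * Real.cos (j * th α + φ))
      rw [c6]
      have c9 : 0 ≤ η * S * 6 ^ (j + 1) := by positivity
      linarith
  intro j hj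
  rcases Nat.eq_zero_or_pos j with h | h
  · subst h
    have e1 : y 0 - A * Real.cos ((0 : ℕ) * th α + φ) = 0 := by
      rw [h0]
      simp
    rw [e1, abs_zero]
    positivity
  · obtain ⟨i, rfl⟩ : ∃ i, j = i + 1 := ⟨j - 1, by omega⟩
    exact (key i hj).2

include hα in
/-- the choice of the index -/
theorem choose_k (K : ℕ) (hK : (Real.pi + α) / (α / 2) ≤ K) (φ : ℝ) :
    ∃ (k : ℕ) (l : ℤ) (δ : ℝ), 1 ≤ k ∧ k ≤ K ∧ α ≤ δ ∧ δ ≤ 3 / 2 * α ∧
      k * (α / 2) + φ = Real.pi / 2 + l * Real.pi + δ := by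
  set ep : ℝ := α / 2 with hep
  have he : 0 < ep := by positivity
  have hπ := Real.pi_pos
  set b : ℝ := φ + ep - Real.pi / 2 - α with hb
  set l : ℤ := ⌈b / Real.pi⌉ with hl
  have h1 : b ≤ l * Real.pi := by
    have := Int.le_ceil (b / Real.pi)
    rwa [div_le_iff₀ hπ] at this
  have h2 : l * Real.pi < b + Real.pi := by
    have := Int.ceil_lt_add_one (b / Real.pi)
    rw [← hl, ← sub_lt_iff_lt_add, lt_div_iff₀ hπ] at this
    linarith
  set a : ℝ := Real.pi / 2 + l * Real.pi + α with ha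
  have h3 : φ + ep ≤ a := by
    rw [ha]
    linarith
  have h4 : a < φ + ep + Real.pi := by
    rw [ha]
    linarith
  set k : ℕ := ⌈(a - φ) / ep⌉₊ with hk
  have h5 : (a - φ) / ep ≤ k := Nat.le_ceil _
  have h6 : (k : ℝ) < (a - φ) / ep + 1 := Nat.ceil_lt_add_one (by
    apply div_nonneg _ he.le
    linarith)
  have h7 : a - φ ≤ k * ep := by rwa [div_le_iff₀ he] at h5
  have h8 : k * ep < a - φ + ep := by
    have := mul_lt_mul_of_pos_right h6 he
    rw [add_mul, one_mul, div_mul_cancel₀ _ he.ne'] at this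
    exact this
  refine ⟨k, l, k * ep + φ - (Real.pi / 2 + l * Real.pi), ?_, ?_, ?_, ?_, by ring⟩
  · have h9 : 0 < (k : ℝ) * ep := by linarith
    have h10 : (0 : ℝ) < k := by
      by_contra hcon
      push Not at hcon
      have := mul_nonpos_of_nonpos_of_nonneg hcon he.le
      linarith
    exact_mod_cast h10
  · have h9 : (k : ℝ) * ep < Real.pi + α := by linarith
    have h10 : (k : ℝ) < (Real.pi + α) / ep := by rwa [lt_div_iff₀ he]
    have : (k : ℝ) ≤ K := (h10.trans_le hK).le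
    exact_mod_cast this
  · rw [ha] at h7
    linarith
  · rw [ha] at h8
    linarith

include hα hα' in
/-- the index: a solution of the recurrence hits the window -/
theorem hit : ∃ ρ₀ : ℝ, 0 < ρ₀ ∧ ∀ ρ : ℝ, ρ₀ ≤ ρ → ∀ x : ℕ → ℝ,
    (∀ m : ℕ, x m = 2 * (m + 1) / ρ * x (m + 1) - x (m + 2)) → (∃ m, x m ≠ 0) →
    ∃ n : ℕ, 4 / 5 * ρ ≤ n ∧ (n : ℝ) ≤ 41 / 50 * ρ ∧ x (n + 1) ≠ 0 ∧
      α ≤ -x n / x (n + 1) ∧ -x n / x (n + 1) ≤ 31 / 10 * α := by
  obtain ⟨K, hK⟩ := exists_nat_ge ((Real.pi + α) / (α / 2))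
  set N : ℕ := 5 * K with hN
  refine ⟨20 / α * (N + 2) * 6 ^ N, by positivity, ?_⟩
  intro ρ hρ x hrec hne
  obtain ⟨c1, c2⟩ := cos_th hα hα'
  set c := Real.cos (th α) with hc
  have h6 : (1 : ℝ) ≤ 6 ^ N := one_le_pow₀ (by norm_num)
  have hNn : (0 : ℝ) ≤ N := Nat.cast_nonneg N
  have hα20 : 2 * 10 ^ 10 ≤ 20 / α := by
    rw [le_div_iff₀ hα]
    linarith
  have hρN : 2 * 10 ^ 10 * ((N : ℝ) + 2) ≤ ρ := by
    refine le_trans ?_ hρ
    have : (0 : ℝ) ≤ 2 * 10 ^ 10 * ((N : ℝ) + 2) := by positivity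
    have h2 : 2 * 10 ^ 10 * ((N : ℝ) + 2) ≤ 20 / α * ((N : ℝ) + 2) :=
      mul_le_mul_of_nonneg_right hα20 (by positivity)
    nlinarith
  have hρ0 : 0 < ρ := by nlinarith
  set m0 : ℕ := ⌊c * ρ⌋₊ with hm0
  have hcρ : 0 ≤ c * ρ := by nlinarith
  have hm1 : (m0 : ℝ) ≤ c * ρ := Nat.floor_le hcρ
  have hm2 : c * ρ < m0 + 1 := Nat.lt_floor_add_one _
  have hm3 : (N : ℝ) + 1 ≤ m0 := by
    have : (N : ℝ) + 2 ≤ c * ρ := by nlinarith
    linarith
  have hm3' : N + 1 ≤ m0 := by exact_mod_cast hm3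
  -- the sequence downwards from `m0`
  set y : ℕ → ℝ := fun j => x (m0 - j) with hy
  set g : ℕ → ℝ := fun j => ((m0 : ℝ) - j - 1) / ρ with hg
  have hyrec : ∀ j, j + 2 ≤ N → y (j + 2) = 2 * g j * y (j + 1) - y j := by
    intro j hj
    have h1 := hrec (m0 - (j + 2))
    have e1 : m0 - (j + 2) + 1 = m0 - (j + 1) := by omega
    have e2 : m0 - (j + 2) + 2 = m0 - j := by omega
    have e3 : ((m0 - (j + 2) : ℕ) : ℝ) + 1 = (m0 : ℝ) - j - 1 := by
      rw [Nat.cast_sub (by omega)]
      push_cast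
      ring
    rw [e1, e2, e3] at h1
    simp only [hy, hg]
    rw [h1]
    ring
  set η : ℝ := (N + 2) / ρ with hη
  have hη0 : 0 ≤ η := by positivity
  have hgb : ∀ j, j + 2 ≤ N → |g j| ≤ 1 ∧ |g j - c| ≤ η := by
    intro j hj
    have hj' : (j : ℝ) + 2 ≤ N := by exact_mod_cast hj
    have hj0 : (0 : ℝ) ≤ j := Nat.cast_nonneg j
    constructor
    · rw [abs_le]
      simp only [hg]
      constructor
      · rw [le_div_iff₀ hρ0]
        linarith
      · rw [div_le_iff₀ hρ0]
        nlinarith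
    · rw [abs_le]
      simp only [hg, hη]
      have e : c = c * ρ / ρ := by field_simp
      constructor
      · rw [e, ← sub_div, ← neg_div, div_le_div_iff_of_pos_right hρ0]
        linarith
      · rw [e, ← sub_div, div_le_div_iff_of_pos_right hρ0]
        linarith
  obtain ⟨A, φ, hA0, hA1, hA2, hA3⟩ := phase hα hα' (y 0) (y 1)
  have hcmp := compare α N y g η hη0 hyrec hgb A φ hA1 hA2
  -- the amplitude is positive
  have hApos : 0 < A := by
    rcases hA0.lt_or_eq with h | h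
    · exact h
    · exfalso
      have hy0 : y 0 = 0 := by rw [hA1, ← h, zero_mul]
      have hy1 : y 1 = 0 := by rw [hA2, ← h, zero_mul]
      have hx0 : x m0 = 0 := hy0
      have hx1 : x (m0 - 1) = 0 := hy1
      -- everything vanishes
      have hdown : ∀ i, i + 1 ≤ m0 → x (m0 - i) = 0 ∧ x (m0 - (i + 1)) = 0 := by
        intro i
        induction i with
        | zero => exact fun _ => ⟨hx0, hx1⟩
        | succ i ih =>
          intro hi
          obtain ⟨a1, a2⟩ := ih (by omega)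
          refine ⟨a2, ?_⟩
          have h1 := hrec (m0 - (i + 2))
          have e1 : m0 - (i + 2) + 1 = m0 - (i + 1) := by omega
          have e2 : m0 - (i + 2) + 2 = m0 - i := by omega
          rw [e1, e2, a1, a2, mul_zero, sub_zero] at h1
          exact h1
      have hup : ∀ i, x (m0 - 1 + i) = 0 ∧ x (m0 - 1 + (i + 1)) = 0 := by
        intro i
        induction i with
        | zero =>
          refine ⟨hx1, ?_⟩
          have : m0 - 1 + (0 + 1) = m0 := by omega
          rw [this]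
          exact hx0
        | succ i ih =>
          refine ⟨ih.2, ?_⟩
          have h1 := hrec (m0 - 1 + i)
          rw [show m0 - 1 + i + 1 = m0 - 1 + (i + 1) from rfl, ih.1, ih.2, mul_zero, zero_sub] at h1
          have e : m0 - 1 + (i + 1 + 1) = m0 - 1 + i + 2 := by omega
          rw [e]
          linarith
      obtain ⟨m, hm⟩ := hne
      apply hm
      rcases le_or_gt (m0 - 1) m with h1 | h1
      · have := (hup (m - (m0 - 1))).1
        rwa [Nat.add_sub_cancel' h1] at this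
      · by_cases h2 : m0 - m + 1 ≤ m0
        · have := (hdown (m0 - m) h2).1
          rwa [show m0 - (m0 - m) = m by omega] at this
        · have := (hdown (m0 - 1) (by omega)).2
          rwa [show m0 - (m0 - 1 + 1) = m by omega] at this
  obtain ⟨k, l, δ, hk1, hk2, hδ1, hδ2, hkl⟩ := choose_k hα K hK φ
  have hδ3 : |δ| ≤ 1 / 10 ^ 8 := by
    rw [abs_le]
    constructor
    · have h9 : (0 : ℝ) ≤ 1 / 10 ^ 8 := by norm_num
      linarith
    · linarith
  -- the error
  have herr : ∀ j, j ≤ N → |y j - A * Real.cos (j * th α + φ)| ≤ A * (α / 10) := by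
    intro j hj
    refine (hcmp j hj).trans ?_
    have e1 : (6 : ℝ) ^ j ≤ 6 ^ N := pow_le_pow_right₀ (by norm_num) hj
    have e2 : η * (|y 0| + |y 1|) * 6 ^ j ≤ η * (2 * A) * 6 ^ N := by
      apply mul_le_mul (mul_le_mul_of_nonneg_left hA3 hη0) e1 (by positivity) (by positivity)
    refine e2.trans ?_
    have e3 : η * 6 ^ N ≤ α / 20 := by
      rw [hη, div_mul_eq_mul_div, div_le_div_iff₀ hρ0 (by norm_num)]
      have h9 := mul_le_mul_of_nonneg_left hρ hα.le
      have h10 : α * (20 / α * ((N : ℝ) + 2) * 6 ^ N) = ((N : ℝ) + 2) * 6 ^ N * 20 := by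
        field_simp
      linarith
    calc η * (2 * A) * 6 ^ N = 2 * A * (η * 6 ^ N) := by ring
      _ ≤ 2 * A * (α / 20) := mul_le_mul_of_nonneg_left e3 (by linarith)
      _ = A * (α / 10) := by ring
  obtain ⟨i, rfl⟩ : ∃ i, k = i + 1 := ⟨k - 1, by omega⟩
  have hj1 : 5 * (i + 1) ≤ N := by omega
  have hj2 : 5 * i + 4 ≤ N := by omega
  have E1 := herr _ hj1
  have E2 := herr _ hj2
  -- the sign
  set σ : ℝ := (-1) ^ (i + 1) * (-1 : ℝ) ^ l with hσ
  have hσ2 : |σ| = 1 := by
    rw [hσ, abs_mul, abs_pow, abs_neg, abs_one, one_pow, one_mul, abs_zpow, abs_neg, abs_one,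
      one_zpow]
  have hσ3 : σ * σ = 1 := by
    rcases abs_eq (by norm_num : (0 : ℝ) ≤ 1) |>.1 hσ2 with h | h <;> rw [h] <;> norm_num
  have hcosa : ∀ t : ℝ, Real.cos (t + (i + 1 : ℕ) * Real.pi + l * Real.pi) = σ * Real.cos t := by
    intro t
    rw [Real.cos_add_int_mul_pi, Real.cos_add_nat_mul_pi, hσ]
    ring
  have hth : 5 * th α = Real.pi + α / 2 := by
    unfold th
    ring
  have C1 : Real.cos ((5 * (i + 1) : ℕ) * th α + φ) = -(σ * Real.sin δ) := by
    have e : ((5 * (i + 1) : ℕ) : ℝ) * th α + φ =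
        (Real.pi / 2 + δ) + (i + 1 : ℕ) * Real.pi + l * Real.pi := by
      have : ((5 * (i + 1) : ℕ) : ℝ) * th α = (i + 1 : ℕ) * (5 * th α) := by
        push_cast
        ring
      rw [this, hth]
      linear_combination hkl
    rw [e, hcosa, Real.cos_add, Real.cos_pi_div_two, Real.sin_pi_div_two]
    ring
  have C2 : Real.cos ((5 * i + 4 : ℕ) * th α + φ) = σ * Real.sin (th α + -δ) := by
    have e : ((5 * i + 4 : ℕ) : ℝ) * th α + φ =
        (Real.pi / 2 + δ - th α) + (i + 1 : ℕ) * Real.pi + l * Real.pi := by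
      have : ((5 * i + 4 : ℕ) : ℝ) * th α = (i + 1 : ℕ) * (5 * th α) - th α := by
        push_cast
        ring
      rw [this, hth]
      linear_combination hkl
    rw [e, hcosa]
    congr 1
    have e2 : Real.pi / 2 + δ - th α = Real.pi / 2 - (th α + -δ) := by ring
    rw [e2, Real.cos_pi_div_two_sub]
  rw [C1] at E1
  rw [C2] at E2
  obtain ⟨s1, s2⟩ := sin_near hα hα' (t := -δ) (by rwa [abs_neg])
  have hδpos : 0 < δ := by linarith
  have hsin1 : Real.sin δ ≤ δ := Real.sin_le hδpos.le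
  have hsin2 : 0.99 * δ ≤ Real.sin δ := by
    have h1 := Real.sin_gt_sub_cube hδpos
    have h2 : δ ^ 3 ≤ 0.01 * δ := by
      have h3 : δ ^ 2 ≤ 0.01 := by
        have : δ ≤ 0.1 := by
          norm_num at *
          linarith
        nlinarith
      nlinarith
    nlinarith
  -- the two numbers
  set u : ℝ := σ * y (5 * (i + 1)) with hu
  set v : ℝ := σ * y (5 * i + 4) with hv
  have U : |u + A * Real.sin δ| ≤ A * (α / 10) := by
    have e : u + A * Real.sin δ = σ * (y (5 * (i + 1)) - A * -(σ * Real.sin δ)) := by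
      rw [hu]
      linear_combination (-(A * Real.sin δ)) * hσ3
    rw [e, abs_mul, hσ2, one_mul]
    exact E1
  have V : |v - A * Real.sin (th α + -δ)| ≤ A * (α / 10) := by
    have e : v - A * Real.sin (th α + -δ) = σ * (y (5 * i + 4) - A * (σ * Real.sin (th α + -δ))) := by
      rw [hv]
      linear_combination (A * Real.sin (th α + -δ)) * hσ3
    rw [e, abs_mul, hσ2, one_mul]
    exact E2
  obtain ⟨U1, U2⟩ := abs_le.1 U
  obtain ⟨V1, V2⟩ := abs_le.1 V
  have v1 : A * 0.57 ≤ v := by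
    have := mul_le_mul_of_nonneg_left s1 hApos.le
    have h9 : A * (α / 10) ≤ A * 0.01 := mul_le_mul_of_nonneg_left (by norm_num at *; linarith) hApos.le
    linarith
  have v2 : v ≤ A * 0.61 := by
    have := mul_le_mul_of_nonneg_left s2 hApos.le
    have h9 : A * (α / 10) ≤ A * 0.01 := mul_le_mul_of_nonneg_left (by norm_num at *; linarith) hApos.le
    linarith
  have hvpos : 0 < v := lt_of_lt_of_le (by positivity) v1
  have hAα : 0 < A * α := mul_pos hApos hα
  have u1 : 0.89 * (A * α) ≤ -u := by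
    have h1 : A * (0.99 * α) ≤ A * Real.sin δ :=
      mul_le_mul_of_nonneg_left (by linarith) hApos.le
    linarith
  have u2 : -u ≤ 1.6 * (A * α) := by
    have h1 : A * Real.sin δ ≤ A * (3 / 2 * α) :=
      mul_le_mul_of_nonneg_left (by linarith) hApos.le
    linarith
  have hσ0 : σ ≠ 0 := by
    intro h
    rw [h, abs_zero] at hσ2
    norm_num at hσ2
  refine ⟨m0 - 5 * (i + 1), ?_, ?_, ?_⟩
  · have h1 : ((5 * (i + 1) : ℕ) : ℝ) ≤ N := by exact_mod_cast hj1
    rw [Nat.cast_sub (by omega)]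
    nlinarith
  · rw [Nat.cast_sub (by omega)]
    have h1 : (0 : ℝ) ≤ ((5 * (i + 1) : ℕ) : ℝ) := Nat.cast_nonneg _
    nlinarith
  · have e1 : m0 - 5 * (i + 1) + 1 = m0 - (5 * i + 4) := by omega
    have e2 : x (m0 - 5 * (i + 1)) = σ * u := by
      rw [hu, ← mul_assoc, hσ3, one_mul]
    have e3 : x (m0 - 5 * (i + 1) + 1) = σ * v := by
      rw [e1, hv, ← mul_assoc, hσ3, one_mul]
    rw [e2, e3]
    have e4 : -(σ * u) / (σ * v) = -u / v := by
      field_simp
    refine ⟨mul_ne_zero hσ0 hvpos.ne', ?_, ?_⟩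
    · rw [e4, le_div_iff₀ hvpos]
      have h9 : α * v ≤ α * (A * 0.61) := mul_le_mul_of_nonneg_left v2 hα.le
      have h10 : α * (A * 0.61) = 0.61 * (A * α) := by ring
      linarith
    · rw [e4, div_le_iff₀ hvpos]
      have h9 : 31 / 10 * α * (A * 0.57) ≤ 31 / 10 * α * v :=
        mul_le_mul_of_nonneg_left v1 (by positivity)
      have h10 : 31 / 10 * α * (A * 0.57) = 3.1 * 0.57 * (A * α) := by ring
      linarith

end Pool.Agent.H957.HE
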