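import Pool.Graph.R_pool_sql_team_seeded_63374d34.N229.SC.Stm

/-!
Project HE (helper957), problem MP_83fd13_an: the Bessel function `J_1` has arbitrarily large zeros.
-/

set_option autoImplicit false

open Set Filter Topology

namespace Pool.Agent.H957.HE

open Pool.Agent.N229.SC (Fb)

/-- the terms of `J_0 (2 x)` -/
noncomputable def t0 (k : ℕ) (x : ℝ) : ℝ := (-1) ^ k * x ^ (2 * k) / (k.factorial * k.factorial)

/-- the terms of `J_1 (2 x)` -/
noncomputable def t1 (k : ℕ) (x : ℝ) : ℝ :=
  (-1) ^ k * x ^ (2 * k + 1) / (k.factorial * (k + 1).factorial)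

/-- `J_0 (2 x)` -/
noncomputable def g0 (x : ℝ) : ℝ := ∑' k, t0 k x

/-- `J_1 (2 x)` -/
noncomputable def g1 (x : ℝ) : ℝ := ∑' k, t1 k x

theorem Fb_one (ρ : ℝ) : Fb ρ 1 = g1 (ρ / 2) := rfl

theorem abs_t0 (k : ℕ) (x : ℝ) : |t0 k x| ≤ (x ^ 2) ^ k / k.factorial := by
  have h1 : (1 : ℝ) ≤ k.factorial := by exact_mod_cast Nat.succ_le_of_lt (Nat.factorial_pos k)
  have h2 : (0 : ℝ) < k.factorial := by linarith
  rw [t0, abs_div, abs_mul, abs_pow, abs_neg, abs_one, one_pow, one_mul, pow_mul,
    abs_of_nonneg (by positivity : (0 : ℝ) ≤ (x ^ 2) ^ k),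
    abs_of_pos (by positivity : (0 : ℝ) < (k.factorial : ℝ) * k.factorial)]
  apply div_le_div_of_nonneg_left (by positivity) h2
  nlinarith

theorem abs_t1 (k : ℕ) (x : ℝ) : |t1 k x| ≤ |x| * ((x ^ 2) ^ k / k.factorial) := by
  have h1 : (1 : ℝ) ≤ (k + 1).factorial := by
    exact_mod_cast Nat.succ_le_of_lt (Nat.factorial_pos (k + 1))
  have h2 : (0 : ℝ) < k.factorial := by exact_mod_cast Nat.factorial_pos k
  rw [t1, abs_div, abs_mul, abs_pow, abs_neg, abs_one, one_pow, one_mul, abs_pow, pow_succ,
    pow_mul, sq_abs,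
    abs_of_pos (by positivity : (0 : ℝ) < (k.factorial : ℝ) * (k + 1).factorial)]
  rw [mul_comm |x|, div_mul_eq_mul_div]
  apply div_le_div_of_nonneg_left (by positivity) h2
  nlinarith

theorem summ0 (x : ℝ) : Summable fun k => t0 k x :=
  Summable.of_norm_bounded (Real.summable_pow_div_factorial (x ^ 2)) fun k => abs_t0 k x

theorem summ1 (x : ℝ) : Summable fun k => t1 k x :=
  Summable.of_norm_bounded ((Real.summable_pow_div_factorial (x ^ 2)).mul_left |x|)
    fun k => abs_t1 k x

theorem pow_le (R : ℝ) (x : ℝ) (hx : x ∈ Metric.ball (0 : ℝ) R) : x ^ 2 ≤ R ^ 2 := by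
  rw [mem_ball_zero_iff, Real.norm_eq_abs] at hx
  rw [← sq_abs x]
  exact pow_le_pow_left₀ (abs_nonneg _) hx.le 2

/-- `J_0' = - J_1` -/
theorem deriv0 (x : ℝ) : HasDerivAt g0 (-2 * g1 x) x := by
  set R : ℝ := |x| + 1 with hR
  have hR0 : 0 < R := by positivity
  have hx : x ∈ Metric.ball (0 : ℝ) R := by
    rw [mem_ball_zero_iff, Real.norm_eq_abs]
    linarith
  -- the derivative of the term `k + 1`
  have hd : ∀ (k : ℕ) (y : ℝ), HasDerivAt (t0 (k + 1)) (-2 * t1 k y) y := by
    intro k y
    have h1 : HasDerivAt (fun y : ℝ => (-1) ^ (k + 1) * y ^ (2 * (k + 1)) /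
        ((k + 1).factorial * (k + 1).factorial))
        ((-1) ^ (k + 1) * (((2 * (k + 1) : ℕ) : ℝ) * y ^ (2 * (k + 1) - 1)) /
        ((k + 1).factorial * (k + 1).factorial)) y :=
      ((hasDerivAt_pow (2 * (k + 1)) y).const_mul _).div_const _
    have h2 : (-1) ^ (k + 1) * (((2 * (k + 1) : ℕ) : ℝ) * y ^ (2 * (k + 1) - 1)) /
        ((k + 1).factorial * (k + 1).factorial) = -2 * t1 k y := by
      have e : 2 * (k + 1) - 1 = 2 * k + 1 := by omega
      rw [e, t1, Nat.factorial_succ]
      have h3 : (k.factorial : ℝ) ≠ 0 := by exact_mod_cast (Nat.factorial_pos k).ne'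
      have h4 : ((k : ℝ) + 1) ≠ 0 := by positivity
      push_cast
      field_simp
      ring
    rw [h2] at h1
    exact h1
  have h5 : HasDerivAt (fun y => ∑' k, t0 (k + 1) y) (∑' k, -2 * t1 k x) x := by
    refine hasDerivAt_tsum_of_isPreconnected
      (u := fun k => 2 * (R * ((R ^ 2) ^ k / k.factorial)))
      (((Real.summable_pow_div_factorial (R ^ 2)).mul_left R).mul_left 2) Metric.isOpen_ball
      (convex_ball (0 : ℝ) R).isPreconnected (fun k y _ => hd k y) ?_ hx
      ((summable_nat_add_iff 1).2 (summ0 x)) hx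
    intro k y hy
    rw [Real.norm_eq_abs, abs_mul, abs_neg, abs_two]
    refine mul_le_mul_of_nonneg_left ((abs_t1 k y).trans ?_) zero_le_two
    have h6 : |y| ≤ R := by
      rw [mem_ball_zero_iff, Real.norm_eq_abs] at hy
      exact hy.le
    have h7 := pow_le R y hy
    have h8 : (y ^ 2) ^ k ≤ (R ^ 2) ^ k := pow_le_pow_left₀ (sq_nonneg _) h7 k
    gcongr
  have h9 : g0 = fun y => t0 0 y + ∑' k, t0 (k + 1) y := by
    funext y
    exact (summ0 y).tsum_eq_zero_add
  have h10 : HasDerivAt (t0 0) 0 x := by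
    have : t0 0 = fun _ => (1 : ℝ) := by
      funext y
      simp [t0]
    rw [this]
    exact hasDerivAt_const x 1
  rw [h9]
  have h11 := h10.add h5
  rw [zero_add, tsum_mul_left] at h11
  exact h11

/-- `(x J_1)' = x J_0` -/
theorem deriv1 (x : ℝ) : HasDerivAt (fun y => y * g1 y) (2 * x * g0 x) x := by
  set R : ℝ := |x| + 1 with hR
  have hR0 : 0 < R := by positivity
  have hx : x ∈ Metric.ball (0 : ℝ) R := by
    rw [mem_ball_zero_iff, Real.norm_eq_abs]
    linarith
  have hd : ∀ (k : ℕ) (y : ℝ), HasDerivAt (fun y => y * t1 k y) (2 * y * t0 k y) y := by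
    intro k y
    have h1 : HasDerivAt (fun y : ℝ => (-1) ^ k * y ^ (2 * k + 2) /
        (k.factorial * (k + 1).factorial))
        ((-1) ^ k * (((2 * k + 2 : ℕ) : ℝ) * y ^ (2 * k + 2 - 1)) /
        (k.factorial * (k + 1).factorial)) y :=
      ((hasDerivAt_pow (2 * k + 2) y).const_mul _).div_const _
    have h2 : (-1) ^ k * (((2 * k + 2 : ℕ) : ℝ) * y ^ (2 * k + 2 - 1)) /
        (k.factorial * (k + 1).factorial) = 2 * y * t0 k y := by
      have e : 2 * k + 2 - 1 = 2 * k + 1 := by omega
      rw [e, t0, Nat.factorial_succ]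
      have h3 : (k.factorial : ℝ) ≠ 0 := by exact_mod_cast (Nat.factorial_pos k).ne'
      have h4 : ((k : ℝ) + 1) ≠ 0 := by positivity
      push_cast
      field_simp
      ring
    rw [h2] at h1
    have h3 : (fun y => y * t1 k y) = fun y : ℝ => (-1) ^ k * y ^ (2 * k + 2) /
        (k.factorial * (k + 1).factorial) := by
      funext y
      rw [t1]
      ring
    rw [h3]
    exact h1
  have hs : Summable fun k => x * t1 k x := (summ1 x).mul_left x
  have h5 : HasDerivAt (fun y => ∑' k, y * t1 k y) (∑' k, 2 * x * t0 k x) x := by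
    refine hasDerivAt_tsum_of_isPreconnected
      (u := fun k => 2 * R * ((R ^ 2) ^ k / k.factorial))
      ((Real.summable_pow_div_factorial (R ^ 2)).mul_left _) Metric.isOpen_ball
      (convex_ball (0 : ℝ) R).isPreconnected (fun k y _ => hd k y) ?_ hx hs hx
    intro k y hy
    have h6 : |y| ≤ R := by
      rw [mem_ball_zero_iff, Real.norm_eq_abs] at hy
      exact hy.le
    have h7 := pow_le R y hy
    have h8 : (y ^ 2) ^ k ≤ (R ^ 2) ^ k := pow_le_pow_left₀ (sq_nonneg _) h7 k
    rw [Real.norm_eq_abs, abs_mul, abs_mul, abs_two]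
    refine mul_le_mul (by linarith) ((abs_t0 k y).trans ?_) (abs_nonneg _) (by positivity)
    gcongr
  have h9 : (fun y => y * g1 y) = fun y => ∑' k, y * t1 k y := by
    funext y
    rw [g1, tsum_mul_left]
  rw [h9, g0, ← tsum_mul_left]
  exact h5

/-- no solution of the Bessel system has a positive second component from a certain point on -/
theorem no_pos (u w : ℝ → ℝ) (hu : ∀ x, HasDerivAt u (-2 * w x) x)
    (hw : ∀ x, HasDerivAt (fun y => y * w y) (2 * x * u x) x) (R : ℝ) (hR : 0 < R)
    (hpos : ∀ x, R < x → 0 < w x) : False := by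
  by_cases hneg : ∃ x1, R < x1 ∧ u x1 < 0
  · obtain ⟨x1, hx1, hux⟩ := hneg
    -- `u ≤ u x1` afterwards
    have hanti : AntitoneOn u (Ici x1) := by
      refine antitoneOn_of_deriv_nonpos (convex_Ici x1)
        (fun x _ => (hu x).continuousAt.continuousWithinAt)
        (fun x _ => (hu x).differentiableAt.differentiableWithinAt) ?_
      intro x hx
      rw [interior_Ici, mem_Ioi] at hx
      rw [(hu x).deriv]
      have := hpos x (by linarith)
      linarith
    have hF : AntitoneOn (fun x => x * w x - u x1 * x ^ 2) (Ici x1) := by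
      have hd : ∀ x, HasDerivAt (fun x => x * w x - u x1 * x ^ 2)
          (2 * x * u x - u x1 * (2 * x)) x := by
        intro x
        have h1 := (hasDerivAt_pow 2 x).const_mul (u x1)
        have h2 := (hw x).sub h1
        simp only [Nat.cast_ofNat, pow_one, Nat.add_one_sub_one] at h2
        exact h2
      refine antitoneOn_of_deriv_nonpos (convex_Ici x1)
        (fun x _ => (hd x).continuousAt.continuousWithinAt)
        (fun x _ => (hd x).differentiableAt.differentiableWithinAt) ?_
      intro x hx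
      rw [interior_Ici, mem_Ioi] at hx
      rw [(hd x).deriv]
      have h1 := hanti (mem_Ici.2 le_rfl) (mem_Ici.2 hx.le) hx.le
      have h2 : 0 < x := by linarith
      nlinarith
    -- at a large point the inequality fails
    obtain ⟨x, hx⟩ : ∃ x : ℝ, x1 ≤ x ∧ x1 * w x1 - u x1 * x1 ^ 2 + u x1 * x ^ 2 < 0 := by
      have hux' : 0 < -u x1 := by linarith
      refine ⟨x1 + (x1 * w x1 - u x1 * x1 ^ 2) / (-u x1) + 1, ?_, ?_⟩
      · have h1 : 0 ≤ (x1 * w x1 - u x1 * x1 ^ 2) / (-u x1) := by
          apply div_nonneg _ hux'.le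
          have := hpos x1 hx1
          have h3 : 0 < x1 := by linarith
          nlinarith [mul_pos h3 this, mul_nonneg hux'.le (sq_nonneg x1)]
        linarith
      · set q := (x1 * w x1 - u x1 * x1 ^ 2) / (-u x1) with hq
        have h1 : 0 ≤ q := by
          apply div_nonneg _ hux'.le
          have := hpos x1 hx1
          have h3 : 0 < x1 := by linarith
          nlinarith [mul_pos h3 this, mul_nonneg hux'.le (sq_nonneg x1)]
        have h2 : x1 * w x1 - u x1 * x1 ^ 2 = q * (-u x1) := by
          rw [hq, div_mul_cancel₀ _ hux'.ne']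
        rw [h2]
        have h3 : 0 < x1 := by linarith
        have h4 : q < (x1 + q + 1) ^ 2 := by nlinarith
        nlinarith
    have h1 := hF (mem_Ici.2 le_rfl) (mem_Ici.2 hx.1) hx.1
    simp only at h1
    have h2 := hpos x (by linarith [hx.1])
    have h3 : 0 < x := by linarith [hx.1]
    have h4 := mul_pos h3 h2
    linarith [hx.2]
  · push Not at hneg
    set x1 := R + 1 with hx1
    have hx10 : 0 < x1 := by linarith
    have hF : MonotoneOn (fun x => x * w x) (Ici x1) := by
      refine monotoneOn_of_deriv_nonneg (convex_Ici x1)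
        (fun x _ => (hw x).continuousAt.continuousWithinAt)
        (fun x _ => (hw x).differentiableAt.differentiableWithinAt) ?_
      intro x hx
      rw [interior_Ici, mem_Ioi] at hx
      rw [(hw x).deriv]
      have h1 := hneg x (by linarith)
      have h2 : 0 < x := by linarith
      positivity
    set c := x1 * w x1 with hc
    have hc0 : 0 < c := mul_pos hx10 (hpos x1 (by linarith))
    have hG : AntitoneOn (fun x => u x + 2 * c * Real.log x) (Ici x1) := by
      have hd : ∀ x, 0 < x → HasDerivAt (fun x => u x + 2 * c * Real.log x)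
          (-2 * w x + 2 * c * x⁻¹) x := by
        intro x hx
        exact (hu x).add ((Real.hasDerivAt_log hx.ne').const_mul _)
      refine antitoneOn_of_deriv_nonpos (convex_Ici x1)
        (fun x hx => (hd x (lt_of_lt_of_le hx10 hx)).continuousAt.continuousWithinAt) ?_ ?_
      · intro x hx
        rw [interior_Ici, mem_Ioi] at hx
        exact (hd x (by linarith)).differentiableAt.differentiableWithinAt
      · intro x hx
        rw [interior_Ici, mem_Ioi] at hx
        have hx0 : 0 < x := by linarith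
        rw [(hd x hx0).deriv]
        have h1 := hF (mem_Ici.2 le_rfl) (mem_Ici.2 hx.le) hx.le
        simp only at h1
        have h2 : c * x⁻¹ ≤ w x := by
          rw [← div_eq_mul_inv, div_le_iff₀ hx0]
          linarith
        linarith
    -- a large point
    have hlim := Real.tendsto_log_atTop
    obtain ⟨x, hx⟩ := ((hlim.eventually_gt_atTop ((u x1 + 2 * c * Real.log x1) / (2 * c))).and
      (eventually_ge_atTop x1)).exists
    have h1 := hG (mem_Ici.2 le_rfl) (mem_Ici.2 hx.2) hx.2
    simp only at h1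
    have h2 := hneg x (by linarith [hx.2])
    have h3 := hx.1
    rw [div_lt_iff₀ (by linarith)] at h3
    linarith

/-- `J_1` has arbitrarily large zeros. -/
theorem zeros (R : ℝ) : ∃ ρ : ℝ, R < ρ ∧ Fb ρ 1 = 0 := by
  by_contra hcon
  push Not at hcon
  set R' : ℝ := |R| + 1 with hR'
  have hne : ∀ x, R' < x → g1 x ≠ 0 := by
    intro x hx
    have h1 := hcon (2 * x) (by
      have := le_abs_self R
      have := abs_nonneg R
      linarith)
    rw [Fb_one] at h1
    have : 2 * x / 2 = x := by ring
    rwa [this] at h1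
  have hcont : ContinuousOn g1 (Ioi R') := by
    intro x hx
    have hx0 : x ≠ 0 := by
      have : R' < x := hx
      have h1 : 0 < R' := by positivity
      exact (h1.trans this).ne'
    have h1 : ContinuousAt (fun y => (y * g1 y) / y) x :=
      (deriv1 x).continuousAt.div continuousAt_id hx0
    have h2 : g1 =ᶠ[𝓝 x] fun y => (y * g1 y) / y := by
      filter_upwards [isOpen_ne.mem_nhds hx0] with y hy
      have : y ≠ 0 := hy
      field_simp
    exact (h1.congr h2.symm).continuousWithinAt
  have hpc : IsPreconnected (Ioi R') := isPreconnected_Ioi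
  have hsign : (∀ x, R' < x → 0 < g1 x) ∨ (∀ x, R' < x → g1 x < 0) := by
    by_contra h
    push Not at h
    obtain ⟨⟨x, hx, hgx⟩, y, hy, hgy⟩ := h
    have h1 : g1 x < 0 := lt_of_le_of_ne hgx (hne x hx)
    have h2 : 0 < g1 y := lt_of_le_of_ne hgy (hne y hy).symm
    obtain ⟨z, hz, hz0⟩ := hpc.intermediate_value (mem_Ioi.2 hx) (mem_Ioi.2 hy) hcont
      ⟨h1.le, h2.le⟩
    exact hne z hz hz0
  rcases hsign with h | h
  · exact no_pos g0 g1 deriv0 deriv1 R' (by positivity) h
  · refine no_pos (fun x => -g0 x) (fun x => -g1 x) ?_ ?_ R' (by positivity) ?_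
    · intro x
      exact (deriv0 x).neg.congr_deriv (by ring)
    · intro x
      have := (deriv1 x).neg
      have e : (fun y => y * -g1 y) = -(fun y => y * g1 y) := by
        funext y
        simp
      rw [e]
      exact this.congr_deriv (by ring)
    · intro x hx
      have := h x hx
      linarith

end Pool.Agent.H957.HE
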