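import Pool.Agent.H957.HE.Stm
import Pool.Agent.H957.HE.Zeros
import Pool.Agent.H957.HE.Rot

/-!
Project HE (helper957), problem MP_83fd13_an: the parameters.
-/

set_option autoImplicit false

open Set Filter Topology

namespace Pool.Agent.H957.HE

open Pool.Agent.N229.SC (Fb Par S_N1)

/-- For every small `α` and every large zero `ρ` of `J_1` there is an order `n` of symmetry with
`- J_n(ρ) / J_{n+1}(ρ)` in `[α, 3.1 α]`. -/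
theorem exists_good (hN1 : S_N1) {α : ℝ} (hα : 0 < α) (hα' : α ≤ 1 / 10 ^ 9) :
    ∃ ρ₀ : ℝ, 0 < ρ₀ ∧ ∀ ρ : ℝ, ρ₀ ≤ ρ → Fb ρ 1 = 0 → ∃ P : Par, SC.Good P ∧
      (∃ C, ∀ i, |P.a i| ≤ C ∧ |P.b i| ≤ C) ∧ P.ρ = ρ ∧ P.a 0 ≤ 31 / 10 * α := by
  obtain ⟨ρ₁, h1, hit⟩ := hit hα hα'
  refine ⟨max ρ₁ 10000, lt_max_of_lt_left h1, ?_⟩
  intro ρ hρ hz
  have hρ1 : ρ₁ ≤ ρ := (le_max_left _ _).trans hρ
  have hρ2 : 10000 ≤ ρ := (le_max_right _ _).trans hρ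
  have hρ0 : 0 < ρ := by linarith
  obtain ⟨hrec, ⟨C, hC⟩, hpos⟩ := hN1 ρ hρ0
  have hne : ∃ m, Fb ρ m ≠ 0 := by
    obtain ⟨m, hm⟩ := exists_nat_ge ρ
    exact ⟨m, (hpos m hm).1.ne'⟩
  obtain ⟨n, n1, n2, n3, n4, n5⟩ := hit ρ hρ1 (Fb ρ) hrec hne
  have h2 : Fb ρ 2 ≠ 0 := by
    intro h2
    have hall : ∀ m : ℕ, Fb ρ (m + 1) = 0 ∧ Fb ρ (m + 2) = 0 := by
      intro m
      induction m with
      | zero => exact ⟨hz, h2⟩
      | succ m ih =>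
        refine ⟨ih.2, ?_⟩
        have h3 := hrec (m + 1)
        rw [ih.1, show m + 1 + 1 = m + 2 from rfl, ih.2] at h3
        linarith
    obtain ⟨m, hm⟩ := exists_nat_ge ρ
    have h3 := (hpos (m + 1) (by push_cast; linarith)).1
    rw [(hall m).1] at h3
    exact lt_irrefl _ h3
  refine ⟨⟨ρ, n, fun i => -Fb ρ (n + i) / Fb ρ (n + 1), fun i => -Fb ρ (1 + i) / Fb ρ 2⟩,
    ⟨hρ2, ?_, ?_, ?_, ?_, ?_, ?_, ?_, ?_, ?_⟩, ?_, rfl, ?_⟩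
  · show 4 / 5 ≤ (n : ℝ) / ρ
    rwa [le_div_iff₀ hρ0]
  · show (n : ℝ) / ρ ≤ 41 / 50
    rwa [div_le_iff₀ hρ0]
  · show -Fb ρ (n + 1) / Fb ρ (n + 1) = -1
    rw [neg_div, div_self n3]
  · show -Fb ρ (1 + 1) / Fb ρ 2 = -1
    rw [show 1 + 1 = 2 from rfl, neg_div, div_self h2]
  · show 0 < -Fb ρ (n + 0) / Fb ρ (n + 1)
    rw [add_zero]
    linarith
  · show -Fb ρ (n + 0) / Fb ρ (n + 1) ≤ 31 / 10 ^ 10
    rw [add_zero]
    refine n5.trans ?_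
    calc 31 / 10 * α ≤ 31 / 10 * (1 / 10 ^ 9) := by linarith
      _ = 31 / 10 ^ 10 := by norm_num
  · show |-Fb ρ (1 + 0) / Fb ρ 2| ≤ -Fb ρ (n + 0) / Fb ρ (n + 1) / 10 ^ 6
    rw [add_zero, add_zero, hz, neg_zero, zero_div, abs_zero]
    have : 0 ≤ -Fb ρ n / Fb ρ (n + 1) := by linarith
    positivity
  · intro i
    show -Fb ρ (n + (i + 2)) / Fb ρ (n + 1) = 2 * (n + i + 1) / ρ * (-Fb ρ (n + (i + 1)) / Fb ρ (n + 1)) -
      -Fb ρ (n + i) / Fb ρ (n + 1)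
    have h3 := hrec (n + i)
    rw [show n + i + 1 = n + (i + 1) from rfl, show n + i + 2 = n + (i + 2) from rfl] at h3
    rw [h3]
    push_cast
    field_simp
    ring
  · intro i
    show -Fb ρ (1 + (i + 2)) / Fb ρ 2 = 2 * (i + 2) / ρ * (-Fb ρ (1 + (i + 1)) / Fb ρ 2) -
      -Fb ρ (1 + i) / Fb ρ 2
    have h3 := hrec (1 + i)
    rw [show 1 + i + 1 = 1 + (i + 1) from rfl, show 1 + i + 2 = 1 + (i + 2) from rfl] at h3
    rw [h3]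
    push_cast
    field_simp
    ring
  · refine ⟨max (C / |Fb ρ (n + 1)|) (C / |Fb ρ 2|), fun i => ⟨?_, ?_⟩⟩
    · show |-Fb ρ (n + i) / Fb ρ (n + 1)| ≤ _
      rw [abs_div, abs_neg]
      refine le_trans ?_ (le_max_left _ _)
      exact div_le_div_of_nonneg_right (hC _) (abs_nonneg _)
    · show |-Fb ρ (1 + i) / Fb ρ 2| ≤ _
      rw [abs_div, abs_neg]
      refine le_trans ?_ (le_max_right _ _)
      exact div_le_div_of_nonneg_right (hC _) (abs_nonneg _)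
  · show -Fb ρ (n + 0) / Fb ρ (n + 1) ≤ 31 / 10 * α
    rw [add_zero]
    exact n5

end Pool.Agent.H957.HE
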