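import Pool.Graph.R_pool_sql_team_seeded_63374d34.N229.SC.Stm

/-!
Project HE (helper957), problem MP_83fd13_an: the statements of the library project N229.SC with
`0 < a_0` instead of `10⁻⁹ ≤ a_0`, so that the amplitude `X` may be as small as we like.
-/

set_option autoImplicit false

open Set Filter Topology MeasureTheory

namespace Pool.Agent.H957.HE.SC

open Pool.Agent.N229.SC

/-- The conditions on the parameters. -/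
structure Good (P : Par) : Prop where
  rho : 10000 ≤ P.ρ
  nu1 : 4 / 5 ≤ P.nu
  nu2 : P.nu ≤ 41 / 50
  a1 : P.a 1 = -1
  b1 : P.b 1 = -1
  a0 : 0 < P.a 0
  a0' : P.a 0 ≤ 31 / 10 ^ 10
  b0 : |P.b 0| ≤ P.a 0 / 10 ^ 6
  ra : ∀ i : ℕ, P.a (i + 2) = 2 * (P.n + i + 1) / P.ρ * P.a (i + 1) - P.a i
  rb : ∀ i : ℕ, P.b (i + 2) = 2 * (i + 2) / P.ρ * P.b (i + 1) - P.b i

/-- SC-AB: bounds of the sequences. -/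
def S_AB : Prop :=
  ∀ P : Par, Good P → (∀ i, |P.a i| ≤ (3 / 2) ^ i * i.factorial) ∧
    (∀ i, |P.b i| ≤ (3 / 2) ^ i * i.factorial) ∧ |P.a 2 + 2 * P.nu| ≤ 3 / 10000 ∧
    |P.b 2| ≤ 5 / 10000 ∧ |P.a 3| ≤ 17 / 10 ∧ |P.b 3| ≤ 101 / 100 ∧ 8000 ≤ (P.n : ℝ)

/-- SC-B1: the functions of `h`. -/
def S_B1 : Prop :=
  ∀ P : Par, Good P → ∀ h : W, ‖h‖ ≤ 1 / 1000 →
    (‖Phi P h‖ ≤ P.nu * ‖h‖ ∧ ‖beta P h‖ ≤ 8 * P.nu * ‖h‖ ∧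
      ‖tau P h - mon wW 1‖ ≤ 93 / 100 * ‖h‖ ∧ ‖tau P h‖ ≤ 1128 / 1000 ∧
      ‖YY P h - 1‖ ≤ 201 / 10 ^ 6 * ‖h‖ ∧ ‖xi P h - h‖ ≤ ‖h‖ ^ 2 / 9000) ∧
    (conj h = h → conj (xi P h) = xi P h ∧ conj (YY P h) = YY P h) ∧
    ((∀ j < 0, cf (Phi P h) j = 0) ∧ cf (Phi P h) 0 = P.nu * cf h 0 ∧
      (∀ j < 1, cf (beta P h) j = 0) ∧ (∀ j < 1, cf (tau P h) j = 0) ∧
      cf (tau P h) 1 = Real.exp (P.nu * cf h 0)) ∧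
    ∀ h' : W, ‖h'‖ ≤ 1 / 1000 → ‖beta P h - beta P h'‖ ≤ 8 * P.nu * ‖h - h'‖ ∧
      ‖tau P h - tau P h'‖ ≤ 93 / 100 * ‖h - h'‖ ∧
      ‖YY P h - YY P h'‖ ≤ 201 / 10 ^ 6 * ‖h - h'‖ ∧
      ‖(xi P h - h) - (xi P h' - h')‖ ≤ ‖h - h'‖ / 1000

/-- SC-B2: bounds of the functions `q_i`, `v_i`, `V_i`, `Q_i`. -/
def S_B2 : Prop :=
  ∀ P : Par, Good P → ∀ (X : ℝ) (h v : W) (y : ℕ → A), 0 < X → X ≤ 3 / 10 ^ 4 → Dom X h v y →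
    (∀ i, ∀ j < 2, cf (qq P h v y i) j = 0) ∧ (∀ i, ∀ j < 2, cf (vv P h v y i) j = 0) ∧
    (∀ i, ‖Vh P X h v y i‖ ≤ 3 / 5 * X * (3 ^ i * i.factorial)) ∧
    (∀ i, ‖Qh P X h v y i‖ ≤ 3 / 5 * (3 ^ i * i.factorial)) ∧
    ∀ V M : ℝ, 0 ≤ V → V ≤ 5 → 0 ≤ M → M ≤ 5 → ‖v‖ ≤ V * X ^ 2 → (∀ i, ‖y i‖ ≤ M * X ^ 2) →
      ‖qq P h v y 0‖ ≤ 51 / 100 * V * X ^ 2 ∧ ‖inc (qq P h v y 0)‖ ≤ 41 / 100 * V * X ^ 2 ∧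
      (∀ i, ‖qq P h v y (i + 1)‖ ≤ 5 / 8 * M * X ^ 2) ∧
      (∀ i, ‖inc (qq P h v y (i + 1))‖ ≤ 1 / 2 * M * X ^ 2) ∧
      ‖vv P h v y 1‖ ≤ (8 / 25 * V + 2 / 5 * M) * X ^ 2 ∧
      (∀ i : ℕ, ‖vv P h v y (i + 1)‖ ≤ (8 / 25 * V + 4 / 5 * M) * (i + 1) * X ^ 2)

/-- SC-B3: Lipschitz bounds of the functions `q_i`, `v_i`, `V_i`, `Q_i`. -/
def S_B3 : Prop :=
  ∀ P : Par, Good P → ∀ (X : ℝ) (h v : W) (y : ℕ → A) (h' v' : W) (y' : ℕ → A) (D : ℝ), 0 < X →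
    X ≤ 3 / 10 ^ 4 → Dom X h v y → Dom X h' v' y' → ‖h - h'‖ ≤ 2 * D → ‖v - v'‖ ≤ D →
    (∀ i, ‖y i - y' i‖ ≤ D) →
    ‖inc (qq P h v y 0) - inc (qq P h' v' y' 0)‖ ≤ 41 / 100 * D ∧
    (∀ i, ‖qq P h v y (i + 1) - qq P h' v' y' (i + 1)‖ ≤ 5 / 8 * D) ∧
    (∀ i, ‖inc (qq P h v y (i + 1)) - inc (qq P h' v' y' (i + 1))‖ ≤ 1 / 2 * D) ∧
    ‖vv P h v y 1 - vv P h' v' y' 1‖ ≤ 3 / 4 * D ∧
    (∀ i, ‖Vh P X h v y i - Vh P X h' v' y' i‖ ≤ 1001 / 1000 * D * (3 ^ i * i.factorial)) ∧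
    (∀ i, ‖Qh P X h v y i - Qh P X h' v' y' i‖ ≤ 2 / 3 * D * (3 ^ i * i.factorial))

/-- SC-SELF: the map sends the domain to itself. -/
def S_SELF : Prop :=
  ∀ P : Par, Good P → ∀ (X : ℝ) (h v : W) (y : ℕ → A), Real.sqrt (P.a 0) ≤ X →
    X ≤ 3 / 10 ^ 4 → Dom X h v y →
    Dom X (h + EE P X h v y) (v - Pi2 (OO P X h v y)) (RH P h v y)

/-- SC-CTR: the map is a contraction. -/
def S_CTR : Prop :=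
  ∀ P : Par, Good P → ∀ (X : ℝ) (h v : W) (y : ℕ → A) (h' v' : W) (y' : ℕ → A) (D : ℝ), 0 < X →
    X ≤ 3 / 10 ^ 4 → Dom X h v y → Dom X h' v' y' → ‖h - h'‖ ≤ 2 * D → ‖v - v'‖ ≤ D →
    (∀ i, ‖y i - y' i‖ ≤ D) →
    ‖(h + EE P X h v y) - (h' + EE P X h' v' y')‖ ≤ 2 * (4 / 5 * D) ∧
    ‖(OO P X h v y - OO P X h' v' y') - ((v - v') - conj (v - v'))‖ ≤ 1 / 10 * D ∧
    ∀ i, ‖RH P h v y i - RH P h' v' y' i‖ ≤ 4 / 5 * D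

/-- SC-LX: dependence on `X`. -/
def S_LX : Prop :=
  ∀ P : Par, Good P → ∀ (X X' : ℝ) (h v : W) (y : ℕ → A), 0 < X → X ≤ X' →
    X' ≤ 3 / 10 ^ 4 → Dom X h v y →
    ‖EE P X h v y - EE P X' h v y‖ ≤ 10 * (X' - X) ∧ ‖OO P X h v y - OO P X' h v y‖ ≤ 10 * (X' - X)

/-- SC-FIX: for each amplitude `X` there is a solution of all equations except one. -/
def S_FIX : Prop :=
  ∀ P : Par, Good P → ∃ x : ℝ → W × W × (ℕ → A),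
    (∀ X ∈ Icc (Real.sqrt (P.a 0)) (5 * Real.sqrt (P.a 0)),
      IsSol P X (x X).1 (x X).2.1 (x X).2.2) ∧
    ContinuousOn (fun X => cf (OO P X (x X).1 (x X).2.1 (x X).2.2) 1)
      (Icc (Real.sqrt (P.a 0)) (5 * Real.sqrt (P.a 0)))

section
variable (P : Par) (X : ℝ) (h v : W) (y : ℕ → A)

/-- The hypotheses of the estimates. -/
structure Hyp : Prop where
  good : Good P
  sol : IsSol P X h v y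
  X1 : Real.sqrt (P.a 0) ≤ X
  X2 : X ≤ 5 * Real.sqrt (P.a 0)

end

/-- SC-HG: the first order of `h`. -/
def S_HG : Prop :=
  ∀ (P : Par) (X : ℝ) (h v : W) (y : ℕ → A), Hyp P X h v y → ∀ H V M : ℝ, 0 ≤ H → H ≤ 2 →
    0 ≤ V → V ≤ 5 → 0 ≤ M → M ≤ 5 → ‖h‖ ≤ H * X → ‖v‖ ≤ V * X ^ 2 → (∀ i, ‖y i‖ ≤ M * X ^ 2) →
    ‖h - X • cc‖ ≤ (19 / 5 * H + 83 / 100 * V + 63 / 100 * M + 1 / 20) * X ^ 2 ∧
    ‖xi P h - X • cc‖ ≤ (19 / 5 * H + 83 / 100 * V + 63 / 100 * M + 1 / 20) * X ^ 2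

/-- SC-VG: the second order of `v`. -/
def S_VG : Prop :=
  ∀ (P : Par) (X : ℝ) (h v : W) (y : ℕ → A), Hyp P X h v y → ∀ H V M K : ℝ, 0 ≤ H → H ≤ 2 →
    0 ≤ V → V ≤ 5 → 0 ≤ M → M ≤ 5 → 0 ≤ K → K ≤ 20 →
    ‖h‖ ≤ H * X → ‖v‖ ≤ V * X ^ 2 → (∀ i, ‖y i‖ ≤ M * X ^ 2) → ‖xi P h - X • cc‖ ≤ K * X ^ 2 →
    ‖v + (X ^ 2 / 2) • mon wW 2‖ ≤
      (23 / 10 * K + 11 / 5 * H + H * (2 / 3 * V + 4 / 5 * M) + 19 / 10 * H ^ 2 + 1 / 10) * X ^ 3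

/-- SC-YG: the bound of `y` by `v`. -/
def S_YG : Prop :=
  ∀ (P : Par) (X : ℝ) (h v : W) (y : ℕ → A), Hyp P X h v y → ∀ V : ℝ, 0 ≤ V →
    ‖v‖ ≤ V * X ^ 2 → ∀ i, ‖y i‖ ≤ 2 / 5 * V * X ^ 2

/-- SC-RV: the coefficient of `t ^ 2` of `q_1`. -/
def S_RV : Prop :=
  ∀ (P : Par) (X : ℝ) (h v : W) (y : ℕ → A), Hyp P X h v y →
    |cf (qq P h v y 1) 2| ≤ |cf v 2| / (4 * P.nu) ∧
    cf (vv P h v y 1) 2 = 2 * cf (qq P h v y 1) 2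

/-- SC-GG: the main estimate. -/
def S_GG : Prop :=
  ∀ (P : Par) (X : ℝ) (h v : W) (y : ℕ → A), Hyp P X h v y →
    ‖h‖ ≤ 57 / 50 * X → ‖h - X • cc‖ ≤ 27 / 5 * X ^ 2 → ‖xi P h - X • cc‖ ≤ 27 / 5 * X ^ 2 →
    ‖v‖ ≤ 2 / 3 * X ^ 2 → (∀ i, ‖y i‖ ≤ 3 / 10 * X ^ 2) →
    |cf (OO P X h v y) 1 - (X * P.a 0 - X / 2 * cf (qq P h v y 1) 2 -
      P.nu / 2 * X * cf v 2 - P.nu / 2 * X ^ 3)| ≤ 100 * X ^ 4 + 1 / 300 * X ^ 3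

/-- SC-SGN: the signs at the ends. -/
def S_SGN : Prop :=
  ∀ (P : Par) (X : ℝ) (h v : W) (y : ℕ → A), Hyp P X h v y →
    (X = Real.sqrt (P.a 0) → 0 < cf (OO P X h v y) 1) ∧
    (X = 5 * Real.sqrt (P.a 0) → cf (OO P X h v y) 1 < 0)

/-- SC-EXI: the solution. -/
def S_EXI : Prop :=
  ∀ P : Par, Good P → ∃ (X : ℝ) (h v : W) (y : ℕ → A), 0 < X ∧ X ≤ 3 / 10 ^ 4 ∧
    X ≤ 5 * Real.sqrt (P.a 0) ∧ IsSol P X h v y ∧ OO P X h v y = 0 ∧ ‖h - X • cc‖ ≤ 15 * X ^ 2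

section
variable (P : Par) (X : ℝ) (h v : W) (y : ℕ → A)

/-- A solution of all equations. -/
structure Full : Prop where
  good : Good P
  bd : ∃ C, ∀ i, |P.a i| ≤ C ∧ |P.b i| ≤ C
  X_pos : 0 < X
  X_le : X ≤ 3 / 10 ^ 4
  sol : IsSol P X h v y
  eO : OO P X h v y = 0
  hX : ‖h - X • cc‖ ≤ 15 * X ^ 2

end

/-- SC-FN1: the conformal map. -/
def S_FN1 : Prop :=
  ∀ (P : Par) (X : ℝ) (h v : W) (y : ℕ → A), Full P X h v y →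
    Conf P.ρ (rF P) (fF P h) ∧ Nd (fF P h)

/-- SC-FN2: the functions `Q_i`. -/
def S_FN2 : Prop :=
  ∀ (P : Par) (X : ℝ) (h v : W) (y : ℕ → A), Full P X h v y →
    (∀ i, DifferentiableOn ℂ (QF P X h v y i) (Metric.ball 0 (rF P))) ∧
    (∃ C, ∀ i, ∀ z ∈ Metric.ball (0 : ℂ) (rF P), ‖QF P X h v y i z‖ ≤ C)

/-- SC-FN3: the relation between the functions `Q_i`. -/
def S_FN3 : Prop :=
  ∀ (P : Par) (X : ℝ) (h v : W) (y : ℕ → A), Full P X h v y →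
    ∀ i : ℕ, ∀ z ∈ Metric.ball (0 : ℂ) (rF P), fF P h z * deriv (QF P X h v y (i + 1)) z +
      (i + 1) * (deriv (fF P h) z * QF P X h v y (i + 1) z) =
      P.ρ / 2 * (deriv (fF P h) z * (QF P X h v y i z + QF P X h v y (i + 2) z))

/-- SC-FN4: the boundary condition. -/
def S_FN4 : Prop :=
  ∀ (P : Par) (X : ℝ) (h v : W) (y : ℕ → A), Full P X h v y →
    ∀ z : ℂ, ‖z‖ = 1 → SS P.ρ (fF P h) (QF P X h v y) z = 0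

/-- SC-FN5: the boundary value is not zero. -/
def S_FN5 : Prop :=
  ∀ (P : Par) (X : ℝ) (h v : W) (y : ℕ → A), Full P X h v y →
    ∃ z : ℂ, ‖z‖ = 1 ∧ UU P.ρ (fF P h) (QF P X h v y) z ≠ 0

end Pool.Agent.H957.HE.SC
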